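import Pool.Agent.Helper95.SH.Err

/-!
# Project RC, SHARP, cell engine: from the blocks to the matrix

`LB n S g I E`: the functional `g` of the coordinates is bounded below, at the scale `S`, by the integer form `I` up to
`E sqv`. Sums of blocks, blocks of products of rows, negative squares, diagonals, the end.
-/

set_option autoImplicit false

namespace Helper43.CL

open Helper95.SH

/-- a lower bound of a functional by an integer form up to an error -/
def LB (n : ℕ) (S : ℝ) (g I : (ℕ → ℝ) → ℝ) (E : ℝ) : Prop := ∀ v, v 0 = 1 → I v - E * sqv n v ≤ S * g v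

/-- the integer form of a block: `m` functionals, weights `W`, rows `R`, `T` -/
noncomputable def IF (n m : ℕ) (W : ℕ → ℤ) (R T : ℕ → ℕ → ℤ) (v : ℕ → ℝ) : ℝ :=
  ∑ c ∈ Finset.range m, (W c : ℝ) * (iv n (R c) v * iv n (T c) v)

/-- the integer form of a diagonal -/
noncomputable def ID (n : ℕ) (D : ℕ → ℤ) (v : ℕ → ℝ) : ℝ := ∑ i ∈ Finset.range n, (D i : ℝ) * v i ^ 2

theorem sqv_nonneg (n : ℕ) (v : ℕ → ℝ) : 0 ≤ sqv n v := Finset.sum_nonneg fun _ _ => sq_nonneg _

section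

variable {n : ℕ} {S : ℝ} {g h I J : (ℕ → ℝ) → ℝ} {E F : ℝ}

theorem LB.add (a : LB n S g I E) (b : LB n S h J F) :
    LB n S (fun v => g v + h v) (fun v => I v + J v) (E + F) := fun v hv => by
  have h1 := a v hv
  have h2 := b v hv
  beta_reduce
  rw [mul_add, add_mul]
  linarith

theorem LB.congr (a : LB n S g I E) (e : ∀ v, v 0 = 1 → h v = g v) (e' : ∀ v, v 0 = 1 → J v = I v) :
    LB n S h J E := fun v hv => by
  rw [e v hv, e' v hv]
  exact a v hv

/-- a larger functional -/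
theorem LB.le (a : LB n S g I E) (hS : 0 ≤ S) (e : ∀ v, v 0 = 1 → g v ≤ h v) : LB n S h I E := fun v hv =>
  (a v hv).trans (mul_le_mul_of_nonneg_left (e v hv) hS)

/-- a smaller form, a larger error -/
theorem LB.mono (a : LB n S g I E) (e : ∀ v, v 0 = 1 → J v ≤ I v) (hE : E ≤ F) : LB n S g J F := fun v hv => by
  have h1 := a v hv
  have h2 := e v hv
  have h3 := mul_le_mul_of_nonneg_right hE (sqv_nonneg n v)
  linarith

theorem LB.zero (n : ℕ) (S : ℝ) : LB n S (fun _ => 0) (fun _ => 0) 0 := fun v _ => by simp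

/-- **THE END** -/
theorem LB.nonneg (a : LB n S g I E) (hS : 0 < S) (hI : ∀ v, v 0 = 1 → E * sqv n v ≤ I v) (v : ℕ → ℝ)
    (hv : v 0 = 1) : 0 ≤ g v := by
  have h1 := a v hv
  have h2 := hI v hv
  have h3 : 0 ≤ S * g v := by linarith
  exact nonneg_of_mul_nonneg_right h3 hS

end

/-! ### blocks of products of rows -/

section

variable {n m : ℕ} {q1 q2 G : ℝ} {w : ℕ → ℝ} {W : ℕ → ℤ} {X Y : ℕ → (ℕ → ℝ) → ℝ} {R T : ℕ → ℕ → ℤ}
  {e1 e2 A B : ℕ → ℝ}

/-- **products of rows, errors per functional** -/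
theorem LB.rows' (h : ∀ c < m, LR n q1 (X c) (R c) (e1 c)) (k : ∀ c < m, LR n q2 (Y c) (T c) (e2 c))
    (hA : ∀ c < m, ∀ i < n, |(R c i : ℝ)| ≤ A c) (hB : ∀ c < m, ∀ i < n, |(T c i : ℝ)| ≤ B c)
    (h1 : ∀ c < m, 0 ≤ e1 c) (h2 : ∀ c < m, 0 ≤ e2 c) (hA0 : ∀ c < m, 0 ≤ A c) (hB0 : ∀ c < m, 0 ≤ B c)
    (hw : ∀ c < m, G * w c = W c) :
    LB n (G * (q1 * q2)) (fun v => ∑ c ∈ Finset.range m, w c * (X c v * Y c v)) (IF n m W R T)
      (∑ c ∈ Finset.range m, |(W c : ℝ)| * (n * (A c * e2 c + B c * e1 c + e1 c * e2 c))) := by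
  intro v hv
  have hr := rows_err (Finset.range m) (n := n) (q1 := fun _ => q1) (q2 := fun _ => q2) (e1 := e1) (e2 := e2)
    (A := A) (B := B) (w := fun c => (W c : ℝ)) (X := X) (Y := Y) (R := R) (T := T)
    (fun c hc => h c (Finset.mem_range.1 hc)) (fun c hc => k c (Finset.mem_range.1 hc))
    (fun c hc => hA c (Finset.mem_range.1 hc)) (fun c hc => hB c (Finset.mem_range.1 hc))
    (fun c hc => h1 c (Finset.mem_range.1 hc)) (fun c hc => h2 c (Finset.mem_range.1 hc))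
    (fun c hc => hA0 c (Finset.mem_range.1 hc)) (fun c hc => hB0 c (Finset.mem_range.1 hc)) hv
  have e : G * (q1 * q2) * ∑ c ∈ Finset.range m, w c * (X c v * Y c v) =
      ∑ c ∈ Finset.range m, (W c : ℝ) * (q1 * q2 * (X c v * Y c v)) := by
    rw [Finset.mul_sum]
    refine Finset.sum_congr rfl fun c hc => ?_
    rw [← hw c (Finset.mem_range.1 hc)]
    ring
  beta_reduce
  rw [e]
  unfold IF
  have := (abs_le.1 hr).1
  beta_reduce at this
  linarith

/-- **negative squares of rows**: weights rounded up -/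
theorem LB.negsq' {q : ℝ} {e : ℕ → ℝ} (h : ∀ c < m, LR n q (X c) (R c) (e c))
    (hA : ∀ c < m, ∀ i < n, |(R c i : ℝ)| ≤ A c) (h1 : ∀ c < m, 0 ≤ e c) (hA0 : ∀ c < m, 0 ≤ A c)
    (hw : ∀ c < m, G * w c ≤ W c) :
    LB n (G * (q * q)) (fun v => -∑ c ∈ Finset.range m, w c * X c v ^ 2) (fun v => -IF n m W R R v)
      (∑ c ∈ Finset.range m, |(W c : ℝ)| * (n * (2 * (A c * e c) + e c * e c))) := by
  intro v hv
  have hr := rows_err (Finset.range m) (n := n) (q1 := fun _ => q) (q2 := fun _ => q) (e1 := e) (e2 := e)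
    (A := A) (B := A) (w := fun c => (W c : ℝ)) (X := X) (Y := X) (R := R) (T := R)
    (fun c hc => h c (Finset.mem_range.1 hc)) (fun c hc => h c (Finset.mem_range.1 hc))
    (fun c hc => hA c (Finset.mem_range.1 hc)) (fun c hc => hA c (Finset.mem_range.1 hc))
    (fun c hc => h1 c (Finset.mem_range.1 hc)) (fun c hc => h1 c (Finset.mem_range.1 hc))
    (fun c hc => hA0 c (Finset.mem_range.1 hc)) (fun c hc => hA0 c (Finset.mem_range.1 hc)) hv
  have e0 : G * (q * q) * ∑ c ∈ Finset.range m, w c * X c v ^ 2 ≤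
      ∑ c ∈ Finset.range m, (W c : ℝ) * (q * q * (X c v * X c v)) := by
    rw [Finset.mul_sum]
    refine Finset.sum_le_sum fun c hc => ?_
    have h2 := hw c (Finset.mem_range.1 hc)
    have h3 : 0 ≤ q * q * (X c v * X c v) := mul_nonneg (mul_self_nonneg _) (mul_self_nonneg _)
    calc G * (q * q) * (w c * X c v ^ 2) = G * w c * (q * q * (X c v * X c v)) := by ring
      _ ≤ _ := mul_le_mul_of_nonneg_right h2 h3
  have e2 : ∑ c ∈ Finset.range m, |(W c : ℝ)| * (n * (A c * e c + A c * e c + e c * e c)) =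
      ∑ c ∈ Finset.range m, |(W c : ℝ)| * (n * (2 * (A c * e c) + e c * e c)) :=
    Finset.sum_congr rfl fun c _ => by ring
  rw [e2] at hr
  beta_reduce
  unfold IF
  have := (abs_le.1 hr).2
  beta_reduce at this
  linarith

end

section

variable {n m : ℕ} {q1 q2 G : ℝ} {w : ℕ → ℝ} {W : ℕ → ℤ} {X Y : ℕ → (ℕ → ℝ) → ℝ} {R T : ℕ → ℕ → ℤ}
  {e1 e2 A B : ℝ}

/-- the error of a block -/
noncomputable def eB (n m : ℕ) (W : ℕ → ℤ) (A B e1 e2 : ℝ) : ℝ :=
  (∑ c ∈ Finset.range m, |(W c : ℝ)|) * (n * (A * e2 + B * e1 + e1 * e2))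

/-- products of rows -/
theorem LB.rows (h : ∀ c < m, LR n q1 (X c) (R c) e1) (k : ∀ c < m, LR n q2 (Y c) (T c) e2)
    (hA : ∀ c < m, ∀ i < n, |(R c i : ℝ)| ≤ A) (hB : ∀ c < m, ∀ i < n, |(T c i : ℝ)| ≤ B)
    (h1 : 0 ≤ e1) (h2 : 0 ≤ e2) (hA0 : 0 ≤ A) (hB0 : 0 ≤ B) (hw : ∀ c < m, G * w c = W c) :
    LB n (G * (q1 * q2)) (fun v => ∑ c ∈ Finset.range m, w c * (X c v * Y c v)) (IF n m W R T)
      (eB n m W A B e1 e2) := by
  have := LB.rows' (G := G) (e1 := fun _ => e1) (e2 := fun _ => e2) (A := fun _ => A) (B := fun _ => B) h k hA hB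
    (fun _ _ => h1) (fun _ _ => h2) (fun _ _ => hA0) (fun _ _ => hB0) hw
  unfold eB
  rw [Finset.sum_mul]
  exact this

/-- negative squares of rows -/
theorem LB.negsq {q e : ℝ} (h : ∀ c < m, LR n q (X c) (R c) e) (hA : ∀ c < m, ∀ i < n, |(R c i : ℝ)| ≤ A)
    (h1 : 0 ≤ e) (hA0 : 0 ≤ A) (hw : ∀ c < m, G * w c ≤ W c) :
    LB n (G * (q * q)) (fun v => -∑ c ∈ Finset.range m, w c * X c v ^ 2) (fun v => -IF n m W R R v)
      (eB n m W A A e e) := by
  have := LB.negsq' (G := G) (e := fun _ => e) (A := fun _ => A) h hA (fun _ _ => h1) (fun _ _ => hA0) hw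
  refine LB.mono this (fun _ _ => le_rfl) (le_of_eq ?_)
  unfold eB
  rw [Finset.sum_mul]
  exact Finset.sum_congr rfl fun c _ => by ring

end

/-- **negative squares of the modulus of complex rows**: the real and the imaginary parts -/
theorem LB.negc {n m : ℕ} {G q e A : ℝ} {w : ℕ → ℝ} {W : ℕ → ℤ} {Z : ℕ → (ℕ → ℝ) → ℂ} {R T : ℕ → ℕ → ℤ}
    (h : ∀ c < m, LR n q (fun v => (Z c v).re) (R c) e) (k : ∀ c < m, LR n q (fun v => (Z c v).im) (T c) e)
    (hA : ∀ c < m, ∀ i < n, |(R c i : ℝ)| ≤ A) (hB : ∀ c < m, ∀ i < n, |(T c i : ℝ)| ≤ A)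
    (h1 : 0 ≤ e) (hA0 : 0 ≤ A) (hw : ∀ c < m, G * w c ≤ W c) :
    LB n (G * (q * q)) (fun v => -∑ c ∈ Finset.range m, w c * ‖Z c v‖ ^ 2)
      (fun v => -IF n m W R R v + -IF n m W T T v) (eB n m W A A e e + eB n m W A A e e) := by
  refine LB.congr (LB.add (LB.negsq (G := G) h hA h1 hA0 hw) (LB.negsq (G := G) k hB h1 hA0 hw)) (fun v _ => ?_)
    fun v _ => rfl
  rw [← neg_add, ← Finset.sum_add_distrib]
  congr 1
  refine Finset.sum_congr rfl fun c _ => ?_
  rw [← Complex.normSq_eq_norm_sq, Complex.normSq_apply]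
  ring

/-- a diagonal -/
theorem LB.diag {n : ℕ} {S : ℝ} {d : ℕ → ℝ} {D : ℕ → ℤ} (hd : ∀ i < n, S * d i ≤ D i) :
    LB n S (fun v => -∑ i ∈ Finset.range n, d i * v i ^ 2) (fun v => -ID n D v) 0 := by
  intro v _
  unfold ID
  rw [zero_mul, sub_zero, mul_neg, neg_le_neg_iff, Finset.mul_sum]
  refine Finset.sum_le_sum fun i hi => ?_
  rw [← mul_assoc]
  exact mul_le_mul_of_nonneg_right (hd i (Finset.mem_range.1 hi)) (sq_nonneg _)

/-- the row of the first coordinate -/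
theorem LR.v0 {n : ℕ} (hn : 0 < n) (q : ℤ) : LR n q (fun _ => 1) (fun j => if j = 0 then q else 0) 0 := LR.one hn q

/-- **a linear functional** -/
theorem LB.lin {n : ℕ} {G q e A w : ℝ} {p W : ℤ} {X : (ℕ → ℝ) → ℝ} {R : ℕ → ℤ} (hn : 0 < n) (h : LR n q X R e)
    (hA : ∀ i < n, |(R i : ℝ)| ≤ A) (h1 : 0 ≤ e) (hA0 : 0 ≤ A) (hw : G * w = W) :
    LB n (G * (q * p)) (fun v => w * X v) (IF n 1 (fun _ => W) (fun _ => R) (fun _ j => if j = 0 then p else 0))
      (|(W : ℝ)| * (n * (|(p : ℝ)| * e))) := by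
  have := LB.rows' (n := n) (m := 1) (G := G) (q1 := q) (q2 := (p : ℝ)) (w := fun _ => w) (W := fun _ => W)
    (X := fun _ => X) (Y := fun _ _ => 1) (R := fun _ => R) (T := fun _ j => if j = 0 then p else 0)
    (e1 := fun _ => e) (e2 := fun _ => 0) (A := fun _ => A) (B := fun _ => |(p : ℝ)|) (fun _ _ => h)
    (fun _ _ => LR.v0 hn p) (fun _ _ => hA) (fun _ _ i _ => by
      beta_reduce
      by_cases hi : i = 0
      · rw [if_pos hi]
      · rw [if_neg hi]; simp) (fun _ _ => h1) (fun _ _ => le_rfl) (fun _ _ => hA0) (fun _ _ => abs_nonneg _)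
    (fun _ _ => hw)
  refine LB.mono (LB.congr this (fun v _ => ?_) fun v _ => rfl) (fun _ _ => le_rfl) (le_of_eq ?_)
  · rw [Finset.sum_range_one]; ring
  · rw [Finset.sum_range_one]; ring

/-- the value of a coordinate row -/
theorem iv_coord {n i : ℕ} (hi : i < n) (q : ℤ) (v : ℕ → ℝ) : iv n (fun j => if j = i then q else 0) v = q * v i := by
  unfold iv
  rw [Finset.sum_eq_single i]
  · simp
  · intro j _ hj; simp [hj]
  · intro h; exact absurd (Finset.mem_range.2 hi) h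

/-- **a quadratic polynomial of single coordinates**: `g v = ∑ c, w c * (v (a c) * v (b c))`, exact -/
theorem LB.poly {n m : ℕ} {G : ℝ} {p : ℤ} {w : ℕ → ℝ} {W : ℕ → ℤ} {a b : ℕ → ℕ} (ha : ∀ c < m, a c < n)
    (hb : ∀ c < m, b c < n) (hw : ∀ c < m, G * w c = W c) :
    LB n (G * (p * p)) (fun v => ∑ c ∈ Finset.range m, w c * (v (a c) * v (b c)))
      (IF n m W (fun c j => if j = a c then p else 0) (fun c j => if j = b c then p else 0)) 0 := by
  intro v _
  rw [zero_mul, sub_zero]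
  unfold IF
  rw [Finset.mul_sum]
  refine le_of_eq (Finset.sum_congr rfl fun c hc => ?_)
  have h := Finset.mem_range.1 hc
  rw [iv_coord (ha c h), iv_coord (hb c h), ← hw c h]
  ring

end Helper43.CL
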