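import Pool.Agent.Helper43.CL.HGsum

/-!
# Project RC, SHARP, cell engine: `HG` of a head as sums of products of real functionals
-/

set_option autoImplicit false

open MeasureTheory Set Filter Topology

namespace Helper43.CL

open Helper49.LT hiding sg
open Helper49.RC (om)
open Helper95.RC
open Helper95.SH
open Helper49.Sharp
open Helper56.RC (fc)
open Helper41.SH (IA inv trp)
open Helper38.SH (O1F O1F_eq mI linO)
open Helper30.SH (ZL LA_rows)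
open Pool.Agent.Helper64.SH (rwN NrA_eq NrLA_eq)
open Helper55.SH (BQ SQ_BQ S1Q_BQ BQ_lin BQ_win BQ_rows LQ_rows LQ_lin cv zA zB wt2)

/-- the parities of the data of `lo` -/
structure LoE (c : CD) : Prop where
  ez : ∀ n, Even n → fc c.L.zs n = 0
  e2 : ∀ n, ¬ Even n → fc (fun t => (c.L.b2s t : ℂ)) n = 0
  e3 : ∀ n, ¬ Even n → fc (fun t => (c.L.b3s t : ℂ)) n = 0

section

variable {c : CD} {K L N H : ℕ}

theorem zes_sup (h : c.K0 ≤ K) {s : ℤ → ℂ} (hs : Sup K s) : Sup K (zes c s) := fun n hn => by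
  unfold zes
  rw [hs n hn, Sup.mono h c.L.sz n hn, sub_zero]

theorem zep_sup (h : c.K0 ≤ L) {p : ℤ → ℂ} (hp : Sup L p) : Sup L (zep c p) := fun n hn => by
  unfold zep
  rw [hp n hn, Sup.mono h c.L.s2 n hn, sub_zero]

theorem zer_sup (h : c.K0 ≤ L) {r : ℤ → ℂ} (hr : Sup L r) : Sup L (zer c r) := fun n hn => by
  unfold zer
  rw [hr n hn, Sup.mono h c.L.s3 n hn, sub_zero]

theorem zes_even (e : LoE c) {s : ℤ → ℂ} (hs : ∀ n, Even n → s n = 0) (n : ℤ) (hn : Even n) : zes c s n = 0 := by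
  unfold zes
  rw [hs n hn, e.ez n hn, sub_zero]

theorem zep_odd (e : LoE c) {p : ℤ → ℂ} (hp : ∀ n, ¬ Even n → p n = 0) (n : ℤ) (hn : ¬ Even n) : zep c p n = 0 := by
  unfold zep
  rw [hp n hn, e.e2 n hn, sub_zero]

theorem zer_odd (e : LoE c) {r : ℤ → ℂ} (hr : ∀ n, ¬ Even n → r n = 0) (n : ℤ) (hn : ¬ Even n) : zer c r n = 0 := by
  unfold zer
  rw [hr n hn, e.e3 n hn, sub_zero]

theorem zep_neg {p : ℤ → ℂ} (hp : ∀ n, p (-n) = (starRingEnd ℂ) (p n)) (n : ℤ) :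
    zep c p (-n) = (starRingEnd ℂ) (zep c p n) := by
  unfold zep
  rw [hp, fc_real_neg, map_sub]

theorem zer_neg {r : ℤ → ℂ} (hr : ∀ n, r (-n) = (starRingEnd ℂ) (r n)) (n : ℤ) :
    zer c r (-n) = (starRingEnd ℂ) (zer c r n) := by
  unfold zer
  rw [hr, fc_real_neg, map_sub]

end

/-- the rows of a band form -/
noncomputable def BR2 (H : ℕ) (g0 : ℝ) (g2 : ℂ) (u : ℤ → ℂ) : ℝ :=
  ∑ j ∈ Finset.range (H + 1),
    ((cv g0 g2 u (2 * j)).re * (wt2 j * (u (2 * j)).re) + (cv g0 g2 u (2 * j)).im * (wt2 j * (u (2 * j)).im))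

/-- **`HG` OF A HEAD AS ROW PAIRS** -/
theorem HG_rows {c : CD} (ok : c.OK) (h0 : c.P.a0 = fun _ => 0) (e : LoE c) {K H N : ℕ} (hK : ¬ Even K)
    (hKN : K ≤ N) (hLN : 2 * H ≤ N) (k1 : c.K0 ≤ K) (k2 : c.K0 ≤ 2 * H) (v : ℕ → ℝ) :
    HG c N (pV K (2 * H) v) (rV K (2 * H) v) (sV K v) =
      (∑ j ∈ Finset.range (2 * H + 3), ((alA c.P (pV K (2 * H) v) (rV K (2 * H) v) (mI (2 * H) j)).re *
          ((alA c.P (pV K (2 * H) v) (rV K (2 * H) v) (mI (2 * H) j)).re / ((mI (2 * H) j : ℤ) + 1 : ℝ))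
        + (alA c.P (pV K (2 * H) v) (rV K (2 * H) v) (mI (2 * H) j)).im *
          ((alA c.P (pV K (2 * H) v) (rV K (2 * H) v) (mI (2 * H) j)).im / ((mI (2 * H) j : ℤ) + 1 : ℝ)))
      + (2 / 3 * (sgA c.P (pV K (2 * H) v) (rV K (2 * H) v)).re * (sgA c.P (pV K (2 * H) v) (rV K (2 * H) v)).re
      + 2 / 3 * (sgA c.P (pV K (2 * H) v) (rV K (2 * H) v)).im * (sgA c.P (pV K (2 * H) v) (rV K (2 * H) v)).im
      + -c.P.pr2 * (H0A c.P (pV K (2 * H) v) (rV K (2 * H) v) - c.P.h0) *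
        (H0A c.P (pV K (2 * H) v) (rV K (2 * H) v) - c.P.h0)
      + linO c.P (pV K (2 * H) v) (rV K (2 * H) v) * 1))
      + 2 * (H0A c.P (pV K (2 * H) v) (rV K (2 * H) v) + c.P.lam) *
        e0I c.P c.Th1 c.Th1' c.Th2 c.Th2' N (pV K (2 * H) v) (rV K (2 * H) v) (sV K v)
      + 2 * ZL c.P N (pV K (2 * H) v) (rV K (2 * H) v) (sV K v)
      + NF c.P.ps (N + 3) (C1 c.P (pV K (2 * H) v) (rV K (2 * H) v) (sV K v))
        (C2 c.P (pV K (2 * H) v) (rV K (2 * H) v) (sV K v))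
      + (∑ j ∈ Finset.range (K + 1), ((zA K (Fm c) (zes c (sV K v)) j).re * (zB K (zes c (sV K v)) j).re
          + (zA K (Fm c) (zes c (sV K v)) j).im * (zB K (zes c (sV K v)) j).im))
      + BR2 H (9 - c.P.cs + 3 / 4 * (c.mu1 + c.mu2)) (((9 - c.P.cs : ℝ) : ℂ) * c.P.eta) (pV K (2 * H) v)
      + BR2 H (9 - c.P.cs) (((9 - c.P.cs : ℝ) : ℂ) * c.P.eta) (rV K (2 * H) v)
      - BR2 H (c.L.p2 * (c.P.m - c.P.lam) + c.L.p2 * (c.mu1 / 2))
        (((c.L.p2 * (c.P.m - c.P.lam) : ℝ) : ℂ) * c.P.eta) (zep c (pV K (2 * H) v))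
      - BR2 H (c.L.p3 * (c.P.m - c.P.lam) + c.L.p3 * (c.mu1 / 2))
        (((c.L.p3 * (c.P.m - c.P.lam) : ℝ) : ℂ) * c.P.eta) (zer c (rV K (2 * H) v))
      + c.mu1 * rwN N (fc c.P.u1) (fc c.P.u2) (pV K (2 * H) v) (rV K (2 * H) v) (sV K v)
      + c.mu2 * rwN N (fc c.d1) (fc c.d2) (pV K (2 * H) v) (rV K (2 * H) v) (sV K v)
      + (c.mu1 + c.mu2) * ((pV K (2 * H) v 0).re - 2 - 1 / 5)
      - c.Q (sV K v (-3)) (sV K v (-5)) := by
  have hp : Sup (2 * H) (pV K (2 * H) v) := hV_sup _ _ _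
  have hr : Sup (2 * H) (rV K (2 * H) v) := hV_sup _ _ _
  have hs : Sup K (sV K v) := sV_sup _ _
  have np : ∀ n, pV K (2 * H) v (-n) = (starRingEnd ℂ) (pV K (2 * H) v n) := hV_neg _ _ _
  have nr : ∀ n, rV K (2 * H) v (-n) = (starRingEnd ℂ) (rV K (2 * H) v n) := hV_neg _ _ _
  have op : ∀ n, ¬ Even n → pV K (2 * H) v n = 0 := hV_odd _ _ _
  have or' : ∀ n, ¬ Even n → rV K (2 * H) v n = 0 := hV_odd _ _ _
  have es : ∀ n, Even n → sV K v n = 0 := sV_even _ _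
  have hzp := zep_sup k2 hp
  have hzr := zer_sup k2 hr
  rw [HG_sum2 ok h0 (arrV hKN hLN v) hp hr hzp hzr hLN hLN, O1F_eq (even_two_mul H) hLN hp hr,
    LQ_rows hK hKN (Fm c) (zes_sup k1 hs) (zes_even e es)]
  rw [BQ_rows le_rfl _ _ hp np op, BQ_rows le_rfl _ _ hr nr or', BQ_rows le_rfl _ _ hzp (zep_neg np) (zep_odd e op),
    BQ_rows le_rfl _ _ hzr (zer_neg nr) (zer_odd e or')]
  rfl

end Helper43.CL
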