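import Pool.Agent.Helper43.CL.LBm

/-!
# Project RC, SHARP, cell engine: bounds of the digits of packed columns, one number per digit

`okDig b rs A`: every digit `k < rs.length` of every column of `A` is at most `2 ^ rs_k` in absolute value (offset `2 ^ b`).
The test: with `C = ∑ (2 ^ b - 2 ^ rs_k) B ^ k` and `H = ∑ (2 ^ (b + 1) - 2 ^ (rs_k + 1)) B ^ k`, `B = 2 ^ (b + 1)`, every packed
number `x` satisfies `C ≤ x` and `(x - C) &&& H = 0`. One subtraction and one conjunction per column.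
-/

set_option autoImplicit false

namespace Helper43.CL

open Helper95.SH
open Helper25.SH.Mat

/-- the constant -/
def dC (b : ℕ) : List ℕ → ℕ
  | [] => 0
  | r :: rs => Nat.add (Nat.sub (Nat.pow 2 b) (Nat.pow 2 r)) (Nat.shiftLeft (dC b rs) (Nat.succ b))

/-- the mask -/
def dH (b : ℕ) : List ℕ → ℕ
  | [] => 0
  | r :: rs =>
    Nat.add (Nat.sub (Nat.pow 2 (Nat.succ b)) (Nat.pow 2 (Nat.succ r))) (Nat.shiftLeft (dH b rs) (Nat.succ b))

/-- every bound is at most `2 ^ b` -/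
def dR (b : ℕ) : List ℕ → Bool
  | [] => true
  | r :: rs => bif Nat.ble r b then dR b rs else false

/-- **the test of the digits** -/
def okDig (b : ℕ) (rs A : List ℕ) : Bool := bif dR b rs then okd (dC b rs) (dH b rs) A else false

theorem land_mask {w s y : ℕ} (hs : s ≤ w) (hy : y < 2 ^ w) (h : y &&& (2 ^ w - 2 ^ s) = 0) : y < 2 ^ s := by
  have e : (2 ^ w - 2 ^ s) / 2 ^ s = 2 ^ (w - s) - 1 := by
    have e1 : 2 ^ w - 2 ^ s = (2 ^ (w - s) - 1) * 2 ^ s := by
      rw [Nat.sub_mul, one_mul, ← pow_add, Nat.sub_add_cancel hs]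
    rw [e1, Nat.mul_div_cancel _ (by positivity)]
  have h1 : (y &&& (2 ^ w - 2 ^ s)) / 2 ^ s = 0 := by rw [h]; simp
  rw [Nat.and_div_two_pow, e, Nat.and_two_pow_sub_one_eq_mod] at h1
  have h2 : y / 2 ^ s < 2 ^ (w - s) := by
    rw [Nat.div_lt_iff_lt_mul (by positivity), ← pow_add, Nat.sub_add_cancel hs]
    exact hy
  rw [Nat.mod_eq_of_lt h2] at h1
  rcases Nat.div_eq_zero_iff.1 h1 with h3 | h3
  · exact absurd h3 (by positivity)
  · exact h3

/-- one step -/
theorem dig_step {b r x C H : ℕ} (hr : r ≤ b) (h1 : 2 ^ b - 2 ^ r + C * 2 ^ (b + 1) ≤ x)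
    (h2 : (x - (2 ^ b - 2 ^ r + C * 2 ^ (b + 1))) &&& (2 ^ (b + 1) - 2 ^ (r + 1) + H * 2 ^ (b + 1)) = 0) :
    2 ^ b ≤ x % 2 ^ (b + 1) + 2 ^ r ∧ x % 2 ^ (b + 1) ≤ 2 ^ b + 2 ^ r ∧ C ≤ x / 2 ^ (b + 1) ∧
      (x / 2 ^ (b + 1) - C) &&& H = 0 := by
  obtain ⟨y, hy⟩ := Nat.exists_eq_add_of_le h1
  have hb : 2 ^ (b + 1) = 2 ^ b + 2 ^ b := by rw [pow_succ]; ring
  have hrr : 2 ^ (r + 1) = 2 ^ r + 2 ^ r := by rw [pow_succ]; ring
  have hp : 2 ^ r ≤ 2 ^ b := Nat.pow_le_pow_right (by norm_num) hr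
  have hr0 : 0 < 2 ^ r := by positivity
  have hB : 0 < 2 ^ (b + 1) := by positivity
  have e0 : x - (2 ^ b - 2 ^ r + C * 2 ^ (b + 1)) = y := by omega
  rw [e0] at h2
  have m1 : (2 ^ (b + 1) - 2 ^ (r + 1) + H * 2 ^ (b + 1)) % 2 ^ (b + 1) = 2 ^ (b + 1) - 2 ^ (r + 1) := by
    rw [Nat.add_mul_mod_self_right, Nat.mod_eq_of_lt]
    omega
  have m2 : (2 ^ (b + 1) - 2 ^ (r + 1) + H * 2 ^ (b + 1)) / 2 ^ (b + 1) = H := by
    rw [Nat.add_mul_div_right _ _ hB, Nat.div_eq_of_lt (by omega), zero_add]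
  have g1 : (y &&& (2 ^ (b + 1) - 2 ^ (r + 1) + H * 2 ^ (b + 1))) % 2 ^ (b + 1) = 0 := by rw [h2]; simp
  have g2 : (y &&& (2 ^ (b + 1) - 2 ^ (r + 1) + H * 2 ^ (b + 1))) / 2 ^ (b + 1) = 0 := by rw [h2]; simp
  rw [Nat.and_mod_two_pow, m1] at g1
  rw [Nat.and_div_two_pow, m2] at g2
  have k1 := land_mask (by omega) (Nat.mod_lt y hB) g1
  have k2 : x = (2 ^ b - 2 ^ r + y % 2 ^ (b + 1)) + (C + y / 2 ^ (b + 1)) * 2 ^ (b + 1) := by
    have := Nat.mod_add_div y (2 ^ (b + 1))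
    rw [add_mul, mul_comm (y / 2 ^ (b + 1))]
    omega
  have k3 : 2 ^ b - 2 ^ r + y % 2 ^ (b + 1) < 2 ^ (b + 1) := by omega
  have k4 : x % 2 ^ (b + 1) = 2 ^ b - 2 ^ r + y % 2 ^ (b + 1) := by
    rw [k2, Nat.add_mul_mod_self_right, Nat.mod_eq_of_lt k3]
  have k5 : x / 2 ^ (b + 1) = C + y / 2 ^ (b + 1) := by
    rw [k2, Nat.add_mul_div_right _ _ hB, Nat.div_eq_of_lt k3, zero_add]
  refine ⟨by omega, by omega, by rw [k5]; exact Nat.le_add_right _ _, ?_⟩
  rw [k5, Nat.add_sub_cancel_left]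
  exact g2

theorem dg_abs {b r t : ℕ} (h1 : 2 ^ b ≤ t + 2 ^ r) (h2 : t ≤ 2 ^ b + 2 ^ r) :
    |((t : ℕ) : ℤ) - ((2 ^ b : ℕ) : ℤ)| ≤ 2 ^ r := by
  rw [abs_le]
  have h3 : ((2 ^ b : ℕ) : ℤ) ≤ (t : ℤ) + ((2 ^ r : ℕ) : ℤ) := by exact_mod_cast h1
  have h4 : (t : ℤ) ≤ ((2 ^ b : ℕ) : ℤ) + ((2 ^ r : ℕ) : ℤ) := by exact_mod_cast h2
  push_cast at h3 h4 ⊢
  constructor <;> linarith

theorem dig_all (b : ℕ) (rs : List ℕ) : ∀ x : ℕ, dR b rs = true → dC b rs ≤ x → (x - dC b rs) &&& dH b rs = 0 →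
    ∀ k < rs.length, |dg b x k| ≤ 2 ^ rs.getD k 0 := by
  induction rs with
  | nil => intro x _ _ _ k hk; simp at hk
  | cons r rs ih =>
    intro x h0 h1 h2 k hk
    unfold dR at h0
    have hr : r ≤ b := by
      by_contra hc
      have : Nat.ble r b = false := by
        cases h : Nat.ble r b with
        | false => rfl
        | true => exact absurd (Nat.le_of_ble_eq_true h) hc
      rw [this] at h0
      simp at h0
    have h0' : dR b rs = true := by
      rw [Nat.ble_eq_true_of_le hr] at h0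
      exact h0
    have hC : dC b (r :: rs) = 2 ^ b - 2 ^ r + dC b rs * 2 ^ (b + 1) := by
      show 2 ^ b - 2 ^ r + dC b rs <<< (b + 1) = _
      rw [Nat.shiftLeft_eq]
    have hH : dH b (r :: rs) = 2 ^ (b + 1) - 2 ^ (r + 1) + dH b rs * 2 ^ (b + 1) := by
      show 2 ^ (b + 1) - 2 ^ (r + 1) + dH b rs <<< (b + 1) = _
      rw [Nat.shiftLeft_eq]
    rw [hC] at h1
    rw [hC, hH] at h2
    obtain ⟨a1, a2, a3, a4⟩ := dig_step hr h1 h2
    cases k with
    | zero =>
      rw [List.getD_cons_zero]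
      unfold dg
      rw [pow_zero, Nat.div_one]
      exact dg_abs a1 a2
    | succ k =>
      rw [List.getD_cons_succ]
      have e : dg b x (k + 1) = dg b (x / 2 ^ (b + 1)) k := by
        unfold dg
        rw [Nat.div_div_eq_div_mul, ← pow_succ']
      rw [e]
      exact ih _ h0' a3 a4 k (by simpa using hk)

theorem okd_spec {C H : ℕ} {A : List ℕ} (h : okd C H A = true) :
    ∀ i < A.length, C ≤ A.getD i 0 ∧ (A.getD i 0 - C) &&& H = 0 := by
  induction A with
  | nil => intro i hi; simp at hi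
  | cons x A ih =>
    unfold okd at h
    have h1 : C ≤ x := by
      by_contra hc
      have : Nat.ble C x = false := by
        cases h : Nat.ble C x with
        | false => rfl
        | true => exact absurd (Nat.le_of_ble_eq_true h) hc
      rw [this] at h
      simp at h
    rw [Nat.ble_eq_true_of_le h1] at h
    have h2 : Nat.beq (Nat.land (Nat.sub x C) H) 0 = true := by
      cases h2 : Nat.beq (Nat.land (Nat.sub x C) H) 0 with
      | true => rfl
      | false =>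
        rw [h2] at h
        simp at h
    rw [h2] at h
    have h3 : okd C H A = true := h
    intro i hi
    cases i with
    | zero => exact ⟨h1, Nat.eq_of_beq_eq_true h2⟩
    | succ i => exact ih h3 i (by simpa using hi)

/-- **the digits are bounded** -/
theorem okDig_spec {b : ℕ} {rs A : List ℕ} (h : okDig b rs A = true) :
    ∀ k < rs.length, ∀ i < A.length, |row b A k i| ≤ 2 ^ rs.getD k 0 := by
  unfold okDig at h
  have h0 : dR b rs = true := by
    cases h0 : dR b rs with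
    | true => rfl
    | false =>
      rw [h0] at h
      simp at h
  rw [h0] at h
  have h' : okd (dC b rs) (dH b rs) A = true := h
  intro k hk i hi
  obtain ⟨h1, h2⟩ := okd_spec h' i hi
  exact dig_all b rs _ h0 h1 h2 k hk

theorem okDig_real {b N : ℕ} {rs A : List ℕ} (h : okDig b rs A = true) (hN : A.length = N) :
    ∀ k < rs.length, ∀ i < N, |(row b A k i : ℝ)| ≤ 2 ^ rs.getD k 0 := by
  intro k hk i hi
  have := okDig_spec h k hk i (by omega)
  exact_mod_cast this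

/-! ### the errors as natural numbers -/

/-- `∑ (2 ^ rs_k e' + 2 ^ rs'_k e + e e')` -/
def eN (e e' : ℕ) : List ℕ → List ℕ → ℕ
  | r :: rs, r' :: rs' =>
    Nat.add (Nat.add (Nat.add (Nat.mul (Nat.pow 2 r) e') (Nat.mul (Nat.pow 2 r') e)) (Nat.mul e e')) (eN e e' rs rs')
  | _, _ => 0

theorem eN_eq (e e' : ℕ) (rs rs' : List ℕ) (h : rs.length = rs'.length) :
    ((eN e e' rs rs' : ℕ) : ℝ) =
      ∑ k ∈ Finset.range rs.length, ((2 : ℝ) ^ rs.getD k 0 * e' + 2 ^ rs'.getD k 0 * e + e * e') := by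
  induction rs generalizing rs' with
  | nil => simp [eN]
  | cons r rs ih =>
    cases rs' with
    | nil => simp at h
    | cons r' rs' =>
      have h' : rs.length = rs'.length := by simpa using h
      rw [List.length_cons, Finset.sum_range_succ']
      simp only [List.getD_cons_succ, List.getD_cons_zero]
      rw [← ih rs' h']
      show ((2 ^ r * e' + 2 ^ r' * e + e * e' + eN e e' rs rs' : ℕ) : ℝ) = _
      push_cast
      ring

/-- the error of a block, constant errors `e`, `e'` of the rows, bounds `2 ^ rs_k`, `2 ^ rs'_k` -/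
def eW (N c e e' : ℕ) (rs rs' : List ℕ) : ℕ := Nat.mul c (Nat.mul N (eN e e' rs rs'))

theorem eW_eq (N c e e' : ℕ) (rs rs' : List ℕ) (h : rs.length = rs'.length) :
    ((eW N c e e' rs rs' : ℕ) : ℝ) =
      eP N rs.length c (fun k => 2 ^ rs.getD k 0) (fun k => 2 ^ rs'.getD k 0) (fun _ => (e : ℝ)) (fun _ => (e' : ℝ)) := by
  show ((c * (N * eN e e' rs rs') : ℕ) : ℝ) = _
  unfold eP
  push_cast
  rw [eN_eq _ _ _ _ h]

section

variable {b N s s' c e e' : ℕ} {G : ℝ} {w y : ℕ → ℝ} {X Y : ℕ → (ℕ → ℝ) → ℝ} {A B rs rs' : List ℕ}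

/-- negative squares from packed columns -/
theorem LB.sqnD (hN : A.length = N) (h : okDig b rs A = true)
    (hX : ∀ k < rs.length, LR N (2 ^ s) (X k) (row b A k) e) (hw : ∀ k < rs.length, G * w k ≤ c) :
    LB N (G * (2 ^ s * 2 ^ s)) (fun v => -∑ k ∈ Finset.range rs.length, w k * X k v ^ 2)
      (fun v => Blk.val b N v (.sq true c rs.length A)) ((eW N c e e rs rs : ℕ) : ℝ) := by
  rw [eW_eq _ _ _ _ _ _ rfl]
  exact LB.sqn (q := 2 ^ s) (a := fun k => 2 ^ rs.getD k 0) (e := fun _ => (e : ℝ)) hX (okDig_real h hN)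
    (fun _ _ => Nat.cast_nonneg _) (fun _ _ => by positivity) hw

/-- positive squares from packed columns -/
theorem LB.sqpD (hN : A.length = N) (h : okDig b rs A = true)
    (hX : ∀ k < rs.length, LR N (2 ^ s) (X k) (row b A k) e) (hw : ∀ k < rs.length, (c : ℝ) ≤ G * w k) :
    LB N (G * (2 ^ s * 2 ^ s)) (fun v => ∑ k ∈ Finset.range rs.length, w k * X k v ^ 2)
      (fun v => Blk.val b N v (.sq false c rs.length A)) ((eW N c e e rs rs : ℕ) : ℝ) := by
  rw [eW_eq _ _ _ _ _ _ rfl]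
  exact LB.sqp (q := 2 ^ s) (a := fun k => 2 ^ rs.getD k 0) (e := fun _ => (e : ℝ)) hX (okDig_real h hN)
    (fun _ _ => Nat.cast_nonneg _) (fun _ _ => by positivity) hw

/-- products from packed columns -/
theorem LB.blD {t : Bool} (hl : rs.length = rs'.length) (hA : A.length = N) (hB : B.length = N)
    (h : okDig b rs A = true) (h' : okDig b rs' B = true)
    (hX : ∀ k < rs.length, LR N (2 ^ s) (X k) (row b A k) e)
    (hY : ∀ k < rs.length, LR N (2 ^ s') (Y k) (row b B k) e')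
    (hw : ∀ k < rs.length, G * w k = sgr t * (2 * c)) :
    LB N (G * (2 ^ s * 2 ^ s')) (fun v => ∑ k ∈ Finset.range rs.length, w k * (X k v * Y k v))
      (fun v => Blk.val b N v (.bl t c rs.length A B)) ((eW N (2 * c) e e' rs rs' : ℕ) : ℝ) := by
  rw [eW_eq _ _ _ _ _ _ hl, Nat.cast_mul, Nat.cast_ofNat]
  exact LB.bl (q1 := 2 ^ s) (q2 := 2 ^ s') (a := fun k => 2 ^ rs.getD k 0) (a' := fun k => 2 ^ rs'.getD k 0)
    (e1 := fun _ => (e : ℝ)) (e2 := fun _ => (e' : ℝ)) hX hY (okDig_real h hA)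
    (fun k hk i hi => okDig_real h' hB k (hl ▸ hk) i hi)
    (fun _ _ => Nat.cast_nonneg _) (fun _ _ => Nat.cast_nonneg _) (fun _ _ => by positivity)
    (fun _ _ => by positivity) hw

end

end Helper43.CL
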