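import Pool.Agent.Helper95.SH.PassI

/-!
# SHARP (MP_b21509_co), cell engine: the local terms of `GI` on a sum of arrays (head + tail)

All sums over `Icc (-M) M`; `Sup K u` = `u` vanishes off `[-K, K]`.
-/

set_option autoImplicit false

open MeasureTheory Set Filter Metric

namespace Pool.Agent.Helper43.CL

open Helper49.LT hiding sg s3
open Helper49.RC (om)
open Helper49.Sharp
open Helper56.RC (fc)
open Helper95.RC (Sup kq wc)
open Helper95.SH
open ComplexConjugate

/-! ### tools -/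

/-- the window -/
noncomputable abbrev IM (M : ℕ) : Finset ℤ := Finset.Icc (-(M : ℤ)) M

theorem sum_fin {M : ℕ} {f : ℤ → ℂ} (h : Sup M f) : ∑ n ∈ IM M, f n = ∑ᶠ n, f n := by
  refine (finsum_eq_sum_of_support_subset f ?_).symm
  intro n hn
  by_contra h1
  exact hn (h n h1)

theorem sup_of {M N : ℕ} {f : ℤ → ℂ} (h : Sup N f) (hM : N ≤ M) : Sup M f := Sup.mono hM h

theorem sum_shift {N M : ℕ} {f : ℤ → ℂ} (h : Sup N f) (c : ℤ) (hM : (N : ℤ) + |c| ≤ M) :
    ∑ n ∈ IM M, f (n - c) = ∑ n ∈ IM M, f n := by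
  have h1 : Sup M f := sup_of h (by have := abs_nonneg c; omega)
  have h2 : Sup M fun n => f (n - c) := by
    intro n hn
    apply h
    intro h3
    rw [Finset.mem_Icc] at h3
    apply hn
    rw [Finset.mem_Icc]
    have h4 := neg_abs_le c
    have h5 := le_abs_self c
    omega
  rw [sum_fin h1, sum_fin h2]
  exact finsum_comp_equiv (Equiv.subRight c) (f := f)

/-- multiplication by the real weight is self adjoint -/
theorem wm_adj {N M : ℕ} {t : ℤ → ℂ} (η : ℂ) (ht : Sup N t) (hM : N + 2 ≤ M) (g : ℤ → ℂ) :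
    ∑ n ∈ IM M, conj (wm η t n) * g n = ∑ n ∈ IM M, conj (t n) * wm η g n := by
  have e1 : ∑ n ∈ IM M, conj (t (n - 2)) * g n = ∑ n ∈ IM M, conj (t n) * g (n + 2) := by
    have h : Sup N fun n => conj (t n) * g (n + 2) := fun n hn => by
      show conj (t n) * g (n + 2) = 0
      rw [ht n hn, map_zero, zero_mul]
    rw [← sum_shift h 2 (by norm_num; exact_mod_cast hM)]
    refine Finset.sum_congr rfl fun n _ => ?_
    rw [sub_add_cancel]
  have e2 : ∑ n ∈ IM M, conj (t (n + 2)) * g n = ∑ n ∈ IM M, conj (t n) * g (n - 2) := by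
    have h : Sup N fun n => conj (t n) * g (n - 2) := fun n hn => by
      show conj (t n) * g (n - 2) = 0
      rw [ht n hn, map_zero, zero_mul]
    rw [← sum_shift h (-2) (by norm_num; exact_mod_cast hM)]
    refine Finset.sum_congr rfl fun n _ => ?_
    rw [sub_neg_eq_add, add_sub_cancel_right]
  have e3 : ∑ n ∈ IM M, conj (wm η t n) * g n = ∑ n ∈ IM M, conj (t n) * g n
      + conj η * ∑ n ∈ IM M, conj (t (n - 2)) * g n + η * ∑ n ∈ IM M, conj (t (n + 2)) * g n := by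
    rw [Finset.mul_sum, Finset.mul_sum, ← Finset.sum_add_distrib, ← Finset.sum_add_distrib]
    refine Finset.sum_congr rfl fun n _ => ?_
    unfold wm
    rw [map_add, map_add, map_mul, map_mul, Complex.conj_conj]
    ring
  rw [e3, e1, e2, Finset.mul_sum, Finset.mul_sum, ← Finset.sum_add_distrib, ← Finset.sum_add_distrib]
  refine Finset.sum_congr rfl fun n _ => ?_
  unfold wm
  ring

theorem wm_add' (η : ℂ) (f g : ℤ → ℂ) (n : ℤ) : wm η (fun k => f k + g k) n = wm η f n + wm η g n := by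
  unfold wm; ring

theorem wm_cmul (η c : ℂ) (f : ℤ → ℂ) (n : ℤ) : wm η (fun k => c * f k) n = c * wm η f n := by
  unfold wm; ring

theorem re_conj (x y : ℂ) : (x * conj y).re = (conj x * y).re := by
  rw [← Complex.conj_re (x * conj y), map_mul, Complex.conj_conj]

/-- hermitian arrays: positive frequencies only -/
theorem herm_sum {M : ℕ} {t g : ℤ → ℂ} (ht : ∀ n, t (-n) = conj (t n)) (h0 : t 0 = 0) :
    (∑ n ∈ IM M, conj (t n) * g n).re = (∑ n ∈ Finset.Icc (1 : ℤ) M, conj (t n) * (g n + conj (g (-n)))).re := by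
  have h1 : ∑ n ∈ IM M, conj (t n) * g n = ∑ n ∈ Finset.Icc (1 : ℤ) M, conj (t n) * g n
      + ∑ n ∈ Finset.Icc (1 : ℤ) M, conj (t (-n)) * g (-n) := by
    have e : IM M = (Finset.Icc (1 : ℤ) M ∪ (Finset.Icc (1 : ℤ) M).image (fun n => -n)) ∪ {0} := by
      ext n
      simp only [Finset.mem_union, Finset.mem_image, Finset.mem_Icc, Finset.mem_singleton]
      constructor
      · intro h
        rcases lt_trichotomy n 0 with h1 | h1 | h1
        · exact Or.inl (Or.inr ⟨-n, by omega, by omega⟩)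
        · exact Or.inr h1
        · exact Or.inl (Or.inl (by omega))
      · rintro ((h | ⟨m, hm, rfl⟩) | h)
        · omega
        · omega
        · omega
    rw [e, Finset.sum_union, Finset.sum_union, Finset.sum_singleton, h0, map_zero, zero_mul, add_zero,
      Finset.sum_image]
    · intro a _ b _ h
      exact neg_injective h
    · rw [Finset.disjoint_left]
      intro n h1 h2
      rw [Finset.mem_image] at h2
      obtain ⟨m, hm, rfl⟩ := h2
      rw [Finset.mem_Icc] at h1 hm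
      omega
    · rw [Finset.disjoint_left]
      intro n h1 h2
      rw [Finset.mem_singleton] at h2
      subst h2
      rw [Finset.mem_union, Finset.mem_Icc, Finset.mem_image] at h1
      rcases h1 with h1 | ⟨m, hm, h1⟩
      · omega
      · rw [Finset.mem_Icc] at hm
        omega
  rw [h1, Complex.add_re, Complex.re_sum, Complex.re_sum, Complex.re_sum, ← Finset.sum_add_distrib]
  refine Finset.sum_congr rfl fun n _ => ?_
  rw [ht, Complex.conj_conj, mul_add, Complex.add_re]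
  congr 1
  rw [← map_mul, Complex.conj_re]

/-! ### the form of `F Lf` -/

/-- the row of the cross term -/
noncomputable def rhL (M : ℕ) (F u : ℤ → ℂ) (m : ℤ) : ℂ :=
  ∑ k ∈ IM M, F (m - k) * (u k + 1 / 2 * conj (u (-k)))

private noncomputable def X (M : ℕ) (F u t : ℤ → ℂ) : ℂ := ∑ m ∈ IM M, ∑ k ∈ IM M, F (m - k) * u k * conj (t m)
private noncomputable def Y (M : ℕ) (F u t : ℤ → ℂ) : ℂ := ∑ m ∈ IM M, ∑ k ∈ IM M, F (m - k) * u k * t (-m)

private theorem X_conj (M : ℕ) {F : ℤ → ℂ} (hF : ∀ n, F (-n) = conj (F n)) (u t : ℤ → ℂ) :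
    conj (X M F t u) = X M F u t := by
  unfold X
  simp_rw [map_sum, map_mul, Complex.conj_conj]
  rw [Finset.sum_comm]
  refine Finset.sum_congr rfl fun m _ => Finset.sum_congr rfl fun k _ => ?_
  have h := hF (k - m)
  rw [neg_sub] at h
  rw [h]
  ring

private theorem Y_symm (M : ℕ) (F u t : ℤ → ℂ) : Y M F t u = Y M F u t := by
  unfold Y
  rw [← sum_neg M]
  have e : ∀ m : ℤ, ∑ k ∈ IM M, F (-m - k) * t k * u (-(-m)) = ∑ k ∈ IM M, F (k - m) * t (-k) * u m := by
    intro m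
    rw [← sum_neg M]
    refine Finset.sum_congr rfl fun k _ => ?_
    rw [neg_neg, show -m - -k = k - m by ring]
  simp_rw [e]
  rw [Finset.sum_comm]
  refine Finset.sum_congr rfl fun m _ => Finset.sum_congr rfl fun k _ => ?_
  ring

private theorem Y_conj (M : ℕ) {F : ℤ → ℂ} (hF : ∀ n, F (-n) = conj (F n)) (u t : ℤ → ℂ) :
    ∑ m ∈ IM M, ∑ k ∈ IM M, F (m - k) * conj (u (-k)) * conj (t m) = conj (Y M F u t) := by
  unfold Y
  simp_rw [map_sum, map_mul]
  rw [← sum_neg M]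
  refine Finset.sum_congr rfl fun m _ => ?_
  rw [← sum_neg M]
  refine Finset.sum_congr rfl fun k _ => ?_
  have h := hF (m - k)
  rw [neg_neg, show -m - -k = -(m - k) by ring, h]

private theorem LQ_XY (M : ℕ) (F u : ℤ → ℂ) : LQ M F u = (X M F u u).re + 1 / 2 * (Y M F u u).re := by
  unfold LQ X Y
  have e : ∀ z : ℂ, 1 / 2 * z.re = (1 / 2 * z).re := fun z => by
    rw [show (1 / 2 : ℂ) = ((1 / 2 : ℝ) : ℂ) by norm_num, Complex.re_ofReal_mul]
  rw [e, ← Complex.add_re, Finset.mul_sum, ← Finset.sum_add_distrib]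
  congr 1
  refine Finset.sum_congr rfl fun m _ => ?_
  rw [Finset.mul_sum, ← Finset.sum_add_distrib]
  refine Finset.sum_congr rfl fun k _ => ?_
  ring

private theorem X_add (M : ℕ) (F u t v s : ℤ → ℂ) : X M F (fun n => u n + t n) (fun n => v n + s n) =
    X M F u v + X M F u s + X M F t v + X M F t s := by
  unfold X
  simp_rw [← Finset.sum_add_distrib]
  refine Finset.sum_congr rfl fun m _ => Finset.sum_congr rfl fun k _ => ?_
  rw [map_add]
  ring

private theorem Y_add (M : ℕ) (F u t v s : ℤ → ℂ) : Y M F (fun n => u n + t n) (fun n => v n + s n) =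
    Y M F u v + Y M F u s + Y M F t v + Y M F t s := by
  unfold Y
  simp_rw [← Finset.sum_add_distrib]
  refine Finset.sum_congr rfl fun m _ => Finset.sum_congr rfl fun k _ => ?_
  ring

/-- `F Lf` on a sum -/
theorem LQ_add (M : ℕ) {F : ℤ → ℂ} (hF : ∀ n, F (-n) = conj (F n)) (u t : ℤ → ℂ) :
    LQ M F (fun n => u n + t n) = LQ M F u + 2 * (∑ m ∈ IM M, conj (t m) * rhL M F u m).re + LQ M F t := by
  have h1 : (X M F t u).re = (X M F u t).re := by
    rw [← X_conj M hF u t, Complex.conj_re]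
  have h2 : (∑ m ∈ IM M, conj (t m) * rhL M F u m).re = (X M F u t).re + 1 / 2 * (Y M F u t).re := by
    have e : ∑ m ∈ IM M, conj (t m) * rhL M F u m = X M F u t
        + 1 / 2 * ∑ m ∈ IM M, ∑ k ∈ IM M, F (m - k) * conj (u (-k)) * conj (t m) := by
      unfold X rhL
      rw [Finset.mul_sum, ← Finset.sum_add_distrib]
      refine Finset.sum_congr rfl fun m _ => ?_
      rw [Finset.mul_sum, Finset.mul_sum, ← Finset.sum_add_distrib]
      refine Finset.sum_congr rfl fun k _ => ?_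
      ring
    rw [e, Y_conj M hF, Complex.add_re, show (1 / 2 : ℂ) = ((1 / 2 : ℝ) : ℂ) by norm_num, Complex.re_ofReal_mul,
      Complex.conj_re]
  rw [LQ_XY, LQ_XY, LQ_XY, X_add, Y_add, h2, Y_symm M F u t]
  simp only [Complex.add_re]
  rw [h1]
  ring

theorem LQ_head {K M : ℕ} (F : ℤ → ℂ) {u : ℤ → ℂ} (hu : Sup K u) (hKM : K ≤ M) : LQ M F u = LQ K F u := by
  have hsub : IM K ⊆ IM M := by
    intro n hn
    rw [Finset.mem_Icc] at hn ⊢
    omega
  unfold LQ
  congr 1
  symm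
  have e1 : ∀ m : ℤ, ∑ k ∈ IM M, F (m - k) * u k * (conj (u m) + 1 / 2 * u (-m)) =
      ∑ k ∈ IM K, F (m - k) * u k * (conj (u m) + 1 / 2 * u (-m)) := by
    intro m
    symm
    refine Finset.sum_subset hsub fun k _ hk => ?_
    rw [hu k hk]
    ring
  simp_rw [e1]
  refine Finset.sum_subset hsub fun m _ hm => ?_
  refine Finset.sum_eq_zero fun k _ => ?_
  have h2 : -m ∉ IM K := by
    intro h
    apply hm
    rw [Finset.mem_Icc] at h ⊢
    omega
  rw [hu m hm, hu (-m) h2, map_zero]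
  ring

theorem rhL_head {K M : ℕ} (F : ℤ → ℂ) {u : ℤ → ℂ} (hu : Sup K u) (hKM : K ≤ M) (m : ℤ) :
    rhL M F u m = rhL K F u m := by
  have hsub : IM K ⊆ IM M := by
    intro n hn
    rw [Finset.mem_Icc] at hn ⊢
    omega
  unfold rhL
  symm
  refine Finset.sum_subset hsub fun k _ hk => ?_
  have h2 : -k ∉ IM K := by
    intro h
    apply hk
    rw [Finset.mem_Icc] at h ⊢
    omega
  rw [hu k hk, hu (-k) h2, map_zero]
  ring

theorem rhL_zero {K W : ℕ} {F : ℤ → ℂ} (hF : Sup W F) (u : ℤ → ℂ) {m : ℤ} (hm : (K : ℤ) + W < |m|) :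
    rhL K F u m = 0 := by
  unfold rhL
  refine Finset.sum_eq_zero fun k hk => ?_
  rw [Finset.mem_Icc] at hk
  rw [hF (m - k), zero_mul]
  rw [Finset.mem_Icc]
  intro h
  rcases abs_cases m with ⟨h1, _⟩ | ⟨h1, _⟩ <;> omega

/-! ### the forms of `w x²` and `x²` -/

theorem SQ_add {N M : ℕ} (η : ℂ) {t : ℤ → ℂ} (u : ℤ → ℂ) (ht : Sup N t) (hM : N + 2 ≤ M) :
    SQ M η (fun n => u n + t n) = SQ M η u + 2 * (∑ m ∈ IM M, conj (t m) * wm η u m).re + SQ M η t := by
  have h := wm_adj η ht hM u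
  have e : ∑ m ∈ IM M, wm η (fun n => u n + t n) m * conj (u m + t m) = ∑ m ∈ IM M, wm η u m * conj (u m)
      + (∑ m ∈ IM M, conj (t m) * wm η u m + conj (∑ m ∈ IM M, conj (wm η t m) * u m))
      + ∑ m ∈ IM M, wm η t m * conj (t m) := by
    rw [map_sum, ← Finset.sum_add_distrib, ← Finset.sum_add_distrib, ← Finset.sum_add_distrib]
    refine Finset.sum_congr rfl fun m _ => ?_
    rw [map_mul, Complex.conj_conj, map_add]
    unfold wm
    ring
  unfold SQ
  rw [e, h, Complex.add_re, Complex.add_re, Complex.add_re, Complex.conj_re]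
  ring

theorem S1Q_add {M : ℕ} (u t : ℤ → ℂ) :
    S1Q M (fun n => u n + t n) = S1Q M u + 2 * (∑ m ∈ IM M, conj (t m) * u m).re + S1Q M t := by
  unfold S1Q
  rw [Complex.re_sum, Finset.mul_sum, ← Finset.sum_add_distrib, ← Finset.sum_add_distrib]
  refine Finset.sum_congr rfl fun m _ => ?_
  rw [← Complex.normSq_eq_norm_sq, ← Complex.normSq_eq_norm_sq, ← Complex.normSq_eq_norm_sq, Complex.normSq_add,
    ← Complex.conj_re (u m * conj (t m)), map_mul, Complex.conj_conj, mul_comm (conj (u m))]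
  have : (conj (t m) * u m).re = (t m * conj (u m)).re := by
    rw [← Complex.conj_re (conj (t m) * u m), map_mul, Complex.conj_conj]
  rw [this]
  ring

/-! ### link 1 -/

section

variable (P : Par)

/-- `α(h)_n / (n + 1)` for even `n` -/
noncomputable def gL (p r : ℤ → ℂ) (n : ℤ) : ℂ := if Even n then alA P p r n / ((n : ℂ) + 1) else 0

/-- the quadratic part of link 1 -/
noncomputable def L1q (N : ℕ) (p r : ℤ → ℂ) : ℝ :=
  ∑ j ∈ Finset.Icc (-((N + 2 : ℕ) : ℤ)) ((N + 2 : ℕ) : ℤ), ‖alA P p r (2 * j)‖ ^ 2 / (2 * (j : ℝ) + 1)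

theorem alA_add (p r p' r' : ℤ → ℂ) (n : ℤ) :
    alA P (fun k => p k + p' k) (fun k => r k + r' k) n = alA P p r n + alA P p' r' n := by
  unfold alA wm
  ring

theorem alA_sup {N : ℕ} {p r : ℤ → ℂ} (hp : Sup N p) (hr : Sup N r) : Sup (N + 2) (alA P p r) := by
  intro n hn
  unfold alA
  rw [wm_sup hp n hn, wm_sup hr n hn]
  ring

/-- only even frequencies -/
theorem sum_even {N : ℕ} {f : ℤ → ℂ} (hf : Sup N f) (he : ∀ n, ¬ Even n → f n = 0) :
    ∑ j ∈ IM N, f (2 * j) = ∑ n ∈ IM N, f n := by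
  have h1 : ∑ j ∈ IM N, f (2 * j) = ∑ n ∈ (IM N).image (fun j => 2 * j), f n := by
    rw [Finset.sum_image]
    intro a _ b _ h
    have h' : (2 : ℤ) * a = 2 * b := h
    omega
  have h2 : ∑ n ∈ (IM N).image (fun j => 2 * j), f n = ∑ᶠ n, f n := by
    refine (finsum_eq_sum_of_support_subset f ?_).symm
    intro n hn
    have h3 : n ∈ IM N := by
      by_contra h
      exact hn (hf n h)
    have h4 : Even n := by
      by_contra h
      exact hn (he n h)
    obtain ⟨k, hk⟩ := h4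
    rw [Finset.mem_coe, Finset.mem_image]
    refine ⟨k, ?_, by show (2 : ℤ) * k = n; omega⟩
    rw [Finset.mem_Icc] at h3 ⊢
    omega
  rw [h1, h2, sum_fin hf]

/-- link 1 on a sum; the tail vanishes on `|n| ≤ 4` -/
theorem L1A_add {N : ℕ} (p r : ℤ → ℂ) {p' r' : ℤ → ℂ} (hp : Sup N p') (hr : Sup N r')
    (zp : ∀ n, |n| ≤ 4 → p' n = 0) (zr : ∀ n, |n| ≤ 4 → r' n = 0) :
    L1A P N (fun k => p k + p' k) (fun k => r k + r' k) = L1A P N p r
      + 2 * (∑ m ∈ IM (N + 2), (conj (p' m) * wm P.eta (gL P p r) m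
        + conj (r' m) * (-(Complex.I / 2) * wm P.eta (gL P p r) m))).re + L1q P N p' r' := by
  have a0 : ∀ n : ℤ, |n| ≤ 2 → alA P p' r' n = 0 := by
    intro n hn
    rw [abs_le] at hn
    unfold alA wm
    rw [zp n (abs_le.2 ⟨by omega, by omega⟩), zp (n - 2) (abs_le.2 ⟨by omega, by omega⟩),
      zp (n + 2) (abs_le.2 ⟨by omega, by omega⟩), zr n (abs_le.2 ⟨by omega, by omega⟩),
      zr (n - 2) (abs_le.2 ⟨by omega, by omega⟩), zr (n + 2) (abs_le.2 ⟨by omega, by omega⟩)]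
    ring
  have hs : Sup (N + 2) (alA P p' r') := alA_sup P hp hr
  have e1 : ∑ j ∈ IM (N + 2), ‖alA P p r (2 * j) + alA P p' r' (2 * j)‖ ^ 2 / (2 * (j : ℝ) + 1) =
      ∑ j ∈ IM (N + 2), ‖alA P p r (2 * j)‖ ^ 2 / (2 * (j : ℝ) + 1)
      + 2 * (∑ j ∈ IM (N + 2), conj (alA P p' r' (2 * j)) * gL P p r (2 * j)).re
      + ∑ j ∈ IM (N + 2), ‖alA P p' r' (2 * j)‖ ^ 2 / (2 * (j : ℝ) + 1) := by
    rw [Complex.re_sum, Finset.mul_sum, ← Finset.sum_add_distrib, ← Finset.sum_add_distrib]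
    refine Finset.sum_congr rfl fun j _ => ?_
    have h1 : gL P p r (2 * j) = alA P p r (2 * j) * (((2 * (j : ℝ) + 1)⁻¹ : ℝ) : ℂ) := by
      unfold gL
      rw [if_pos (even_two_mul j), div_eq_mul_inv]
      push_cast
      rfl
    have h2 : (conj (alA P p' r' (2 * j)) * gL P p r (2 * j)).re =
        (alA P p r (2 * j) * conj (alA P p' r' (2 * j))).re * (2 * (j : ℝ) + 1)⁻¹ := by
      rw [h1, ← mul_assoc, Complex.re_mul_ofReal, mul_comm (conj (alA P p' r' (2 * j)))]
    rw [h2, ← Complex.normSq_eq_norm_sq, ← Complex.normSq_eq_norm_sq, ← Complex.normSq_eq_norm_sq, Complex.normSq_add]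
    ring
  have e2 : ∑ j ∈ IM (N + 2), conj (alA P p' r' (2 * j)) * gL P p r (2 * j) =
      ∑ n ∈ IM (N + 2), conj (alA P p' r' n) * gL P p r n := by
    refine sum_even (f := fun n => conj (alA P p' r' n) * gL P p r n) (fun n hn => ?_) fun n hn => ?_
    · show conj (alA P p' r' n) * gL P p r n = 0
      rw [hs n hn, map_zero, zero_mul]
    · show conj (alA P p' r' n) * gL P p r n = 0
      unfold gL
      rw [if_neg hn, mul_zero]
  have e3 : ∑ n ∈ IM (N + 2), conj (alA P p' r' n) * gL P p r n =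
      ∑ m ∈ IM (N + 2), (conj (p' m) * wm P.eta (gL P p r) m
        + conj (r' m) * (-(Complex.I / 2) * wm P.eta (gL P p r) m)) := by
    have h1 := wm_adj P.eta hp (le_refl (N + 2)) (gL P p r)
    have h2 := wm_adj P.eta hr (le_refl (N + 2)) (gL P p r)
    have e : ∑ n ∈ IM (N + 2), conj (alA P p' r' n) * gL P p r n =
        ∑ n ∈ IM (N + 2), conj (wm P.eta p' n) * gL P p r n
        + -(Complex.I / 2) * ∑ n ∈ IM (N + 2), conj (wm P.eta r' n) * gL P p r n := by
      rw [Finset.mul_sum, ← Finset.sum_add_distrib]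
      refine Finset.sum_congr rfl fun n _ => ?_
      unfold alA
      have hI : conj (Complex.I / 2) = -(Complex.I / 2) := by
        rw [map_div₀, Complex.conj_I, Complex.conj_ofNat]
        ring
      rw [map_add, map_mul, hI]
      ring
    rw [e, h1, h2, Finset.mul_sum, ← Finset.sum_add_distrib]
    refine Finset.sum_congr rfl fun n _ => ?_
    ring
  unfold L1A L1q
  simp_rw [alA_add]
  rw [e1, e2, e3, a0 0 (by norm_num), a0 2 (by norm_num), a0 (-2) (by norm_num)]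
  simp only [add_zero]
  ring

/-! ### the linear parts -/

/-- the linear part of the weighted families -/
noncomputable def G1H (p r s : ℤ → ℂ) (n : ℤ) : ℂ := conj om * wm P.eta p n + kq 2 * wm P.eta r n + wm P.eta s n
noncomputable def G2H (p r s : ℤ → ℂ) (n : ℤ) : ℂ :=
  conj om ^ 2 * wm P.eta p n + conj (kq 2) * wm P.eta r n - wm P.eta s n

theorem G1A_add (p r s p' r' s' : ℤ → ℂ) (n : ℤ) :
    G1A P (fun k => p k + p' k) (fun k => r k + r' k) (fun k => s k + s' k) n = G1A P p r s n + G1H P p' r' s' n := by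
  unfold G1A G1H
  rw [wm_add', wm_add', wm_add']
  ring

theorem G2A_add (p r s p' r' s' : ℤ → ℂ) (n : ℤ) :
    G2A P (fun k => p k + p' k) (fun k => r k + r' k) (fun k => s k + s' k) n = G2A P p r s n + G2H P p' r' s' n := by
  unfold G2A G2H
  rw [wm_add', wm_add', wm_add']
  ring

/-- the coefficients of the linear functional `Σ Re (G1H conj Z1 + G2H conj Z2)` -/
theorem G_lin {N : ℕ} {p r s : ℤ → ℂ} (hp : Sup N p) (hr : Sup N r) (hs : Sup N s) (Z1 Z2 : ℤ → ℂ) :
    (∑ n ∈ IM (N + 2), G1H P p r s n * conj (Z1 n)).re + (∑ n ∈ IM (N + 2), G2H P p r s n * conj (Z2 n)).re =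
      (∑ m ∈ IM (N + 2), (conj (p m) * wm P.eta (fun k => om * Z1 k + om ^ 2 * Z2 k) m
        + conj (r m) * wm P.eta (fun k => conj (kq 2) * Z1 k + kq 2 * Z2 k) m
        + conj (s m) * wm P.eta (fun k => Z1 k - Z2 k) m)).re := by
  have a1 := wm_adj P.eta hp (le_refl (N + 2)) (fun k => om * Z1 k + om ^ 2 * Z2 k)
  have a2 := wm_adj P.eta hr (le_refl (N + 2)) (fun k => conj (kq 2) * Z1 k + kq 2 * Z2 k)
  have a3 := wm_adj P.eta hs (le_refl (N + 2)) (fun k => Z1 k - Z2 k)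
  have e : ∑ n ∈ IM (N + 2), (conj (p n) * wm P.eta (fun k => om * Z1 k + om ^ 2 * Z2 k) n
        + conj (r n) * wm P.eta (fun k => conj (kq 2) * Z1 k + kq 2 * Z2 k) n
        + conj (s n) * wm P.eta (fun k => Z1 k - Z2 k) n) =
      ∑ n ∈ IM (N + 2), conj (G1H P p r s n * conj (Z1 n)) + ∑ n ∈ IM (N + 2), conj (G2H P p r s n * conj (Z2 n)) := by
    rw [Finset.sum_add_distrib, Finset.sum_add_distrib, ← a1, ← a2, ← a3, ← Finset.sum_add_distrib,
      ← Finset.sum_add_distrib, ← Finset.sum_add_distrib]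
    refine Finset.sum_congr rfl fun n _ => ?_
    unfold G1H G2H
    simp only [map_add, map_sub, map_mul, map_pow, Complex.conj_conj]
    ring
  rw [e, ← map_sum, ← map_sum, Complex.add_re, Complex.conj_re, Complex.conj_re]

/-- the linear part of the unweighted families -/
noncomputable def g1H (p r s : ℤ → ℂ) (n : ℤ) : ℂ := conj om * p n + kq 2 * r n + s n
noncomputable def g2H (p r s : ℤ → ℂ) (n : ℤ) : ℂ := conj om ^ 2 * p n + conj (kq 2) * r n - s n

theorem g1A_add (p r s p' r' s' : ℤ → ℂ) (n : ℤ) :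
    g1A (fun k => p k + p' k) (fun k => r k + r' k) (fun k => s k + s' k) n = g1A p r s n + g1H p' r' s' n := by
  unfold g1A g1H
  ring

theorem g2A_add (p r s p' r' s' : ℤ → ℂ) (n : ℤ) :
    g2A (fun k => p k + p' k) (fun k => r k + r' k) (fun k => s k + s' k) n = g2A p r s n + g2H p' r' s' n := by
  unfold g2A g2H
  ring

theorem g_lin (N : ℕ) (p r s Z1 Z2 : ℤ → ℂ) :
    (∑ n ∈ IM N, g1H p r s n * conj (Z1 n)).re + (∑ n ∈ IM N, g2H p r s n * conj (Z2 n)).re =
      (∑ m ∈ IM N, (conj (p m) * (om * Z1 m + om ^ 2 * Z2 m)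
        + conj (r m) * (conj (kq 2) * Z1 m + kq 2 * Z2 m) + conj (s m) * (Z1 m - Z2 m))).re := by
  have e : ∑ n ∈ IM N, (conj (p n) * (om * Z1 n + om ^ 2 * Z2 n)
        + conj (r n) * (conj (kq 2) * Z1 n + kq 2 * Z2 n) + conj (s n) * (Z1 n - Z2 n)) =
      ∑ n ∈ IM N, conj (g1H p r s n * conj (Z1 n)) + ∑ n ∈ IM N, conj (g2H p r s n * conj (Z2 n)) := by
    rw [← Finset.sum_add_distrib]
    refine Finset.sum_congr rfl fun n _ => ?_
    unfold g1H g2H
    simp only [map_add, map_sub, map_mul, map_pow, Complex.conj_conj]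
    ring
  rw [e, ← map_sum, ← map_sum, Complex.add_re, Complex.conj_re, Complex.conj_re]

/-! ### the complete local terms -/

/-- the homogeneous part of `LA` -/
noncomputable def LA0 (N : ℕ) (p r : ℤ → ℂ) : ℝ := (9 - P.cs) * (SQ (N + 2) P.eta p + SQ (N + 2) P.eta r)

/-- `LA` on a sum -/
theorem LA_add {N : ℕ} (p r s : ℤ → ℂ) {p' r' s' : ℤ → ℂ} (hp : Sup N p') (hr : Sup N r') (hs : Sup N s') :
    LA P N (fun k => p k + p' k) (fun k => r k + r' k) (fun k => s k + s' k) = LA P N p r s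
      + 2 * (∑ m ∈ IM (N + 2), (conj (p' m) * (wm P.eta (fun k => om * (1 / 2 * fc (Z1 P) k)
          + om ^ 2 * (1 / 2 * fc (Z2 P) k)) m + ((9 - P.cs : ℝ) : ℂ) * wm P.eta p m)
        + conj (r' m) * (wm P.eta (fun k => conj (kq 2) * (1 / 2 * fc (Z1 P) k)
          + kq 2 * (1 / 2 * fc (Z2 P) k)) m + ((9 - P.cs : ℝ) : ℂ) * wm P.eta r m)
        + conj (s' m) * wm P.eta (fun k => 1 / 2 * fc (Z1 P) k - 1 / 2 * fc (Z2 P) k) m)).re
      + LA0 P N p' r' := by
  have h1 := G_lin P hp hr hs (fun k => 1 / 2 * fc (Z1 P) k) (fun k => 1 / 2 * fc (Z2 P) k)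
  have h2 := SQ_add P.eta p hp (le_refl (N + 2))
  have h3 := SQ_add P.eta r hr (le_refl (N + 2))
  have hc : conj (1 / 2 : ℂ) = 1 / 2 := by
    rw [map_div₀, map_one, Complex.conj_ofNat]
  have s1 : ∀ G Z : ℤ → ℂ, (∑ n ∈ IM (N + 2), G n * conj (1 / 2 * Z n)).re =
      1 / 2 * (∑ n ∈ IM (N + 2), G n * conj (Z n)).re := by
    intro G Z
    have e : ∑ n ∈ IM (N + 2), G n * conj (1 / 2 * Z n) = ((1 / 2 : ℝ) : ℂ) * ∑ n ∈ IM (N + 2), G n * conj (Z n) := by
      rw [Finset.mul_sum]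
      refine Finset.sum_congr rfl fun n _ => ?_
      rw [map_mul, hc]
      push_cast
      ring
    rw [e, Complex.re_ofReal_mul]
  rw [s1, s1] at h1
  have t1 : ∑ n ∈ IM (N + 2), G1A P (fun k => p k + p' k) (fun k => r k + r' k) (fun k => s k + s' k) n
        * conj (fc (Z1 P) n) = ∑ n ∈ IM (N + 2), G1A P p r s n * conj (fc (Z1 P) n)
        + ∑ n ∈ IM (N + 2), G1H P p' r' s' n * conj (fc (Z1 P) n) := by
    rw [← Finset.sum_add_distrib]
    exact Finset.sum_congr rfl fun n _ => by rw [G1A_add]; ring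
  have t2 : ∑ n ∈ IM (N + 2), G2A P (fun k => p k + p' k) (fun k => r k + r' k) (fun k => s k + s' k) n
        * conj (fc (Z2 P) n) = ∑ n ∈ IM (N + 2), G2A P p r s n * conj (fc (Z2 P) n)
        + ∑ n ∈ IM (N + 2), G2H P p' r' s' n * conj (fc (Z2 P) n) := by
    rw [← Finset.sum_add_distrib]
    exact Finset.sum_congr rfl fun n _ => by rw [G2A_add]; ring
  have q : ∀ a b : ℤ → ℂ, (∑ n ∈ IM (N + 2), (wm P.eta a n * conj (a n) + wm P.eta b n * conj (b n))).re =
      SQ (N + 2) P.eta a + SQ (N + 2) P.eta b := by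
    intro a b
    unfold SQ
    rw [Finset.sum_add_distrib, Complex.add_re]
  have r1 : (∑ m ∈ IM (N + 2), (conj (p' m) * (wm P.eta (fun k => om * (1 / 2 * fc (Z1 P) k)
          + om ^ 2 * (1 / 2 * fc (Z2 P) k)) m + ((9 - P.cs : ℝ) : ℂ) * wm P.eta p m)
        + conj (r' m) * (wm P.eta (fun k => conj (kq 2) * (1 / 2 * fc (Z1 P) k)
          + kq 2 * (1 / 2 * fc (Z2 P) k)) m + ((9 - P.cs : ℝ) : ℂ) * wm P.eta r m)
        + conj (s' m) * wm P.eta (fun k => 1 / 2 * fc (Z1 P) k - 1 / 2 * fc (Z2 P) k) m)).re =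
      (∑ m ∈ IM (N + 2), (conj (p' m) * wm P.eta (fun k => om * (1 / 2 * fc (Z1 P) k)
          + om ^ 2 * (1 / 2 * fc (Z2 P) k)) m
        + conj (r' m) * wm P.eta (fun k => conj (kq 2) * (1 / 2 * fc (Z1 P) k)
          + kq 2 * (1 / 2 * fc (Z2 P) k)) m
        + conj (s' m) * wm P.eta (fun k => 1 / 2 * fc (Z1 P) k - 1 / 2 * fc (Z2 P) k) m)).re
      + (9 - P.cs) * ((∑ m ∈ IM (N + 2), conj (p' m) * wm P.eta p m).re
        + (∑ m ∈ IM (N + 2), conj (r' m) * wm P.eta r m).re) := by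
    rw [← Complex.add_re, ← Complex.re_ofReal_mul, ← Complex.add_re, ← Finset.sum_add_distrib, Finset.mul_sum,
      ← Finset.sum_add_distrib]
    congr 1
    refine Finset.sum_congr rfl fun m _ => ?_
    ring
  rw [r1, ← h1]
  unfold LA LA0
  rw [t1, t2, q, q, h2, h3, Complex.add_re, Complex.add_re]
  ring

end

section

variable {P : Par} {K : ℕ} (L : Lo P K)

/-- the homogeneous part of `LoA` -/
noncomputable def LoA0 (N : ℕ) (p r s : ℤ → ℂ) : ℝ :=
  LQ N (fc fun t => ((P.w t * L.f t : ℝ) : ℂ)) s - L.p2 * SQ (N + 2) P.eta p - L.p3 * SQ (N + 2) P.eta r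

/-- the homogeneous part of `Lo1A` -/
noncomputable def Lo1A0 (N : ℕ) (p r s : ℤ → ℂ) : ℝ :=
  LQ N (fc fun t => (L.f t : ℂ)) s - L.p2 * S1Q N p - L.p3 * S1Q N r

theorem fc_herm (f : ℝ → ℝ) (n : ℤ) : fc (fun t => (f t : ℂ)) (-n) = conj (fc (fun t => (f t : ℂ)) n) :=
  Helper95.RC.fc_real_neg f n

theorem LoA_add {N : ℕ} (p r s : ℤ → ℂ) {p' r' : ℤ → ℂ} (s' : ℤ → ℂ) (hp : Sup N p') (hr : Sup N r') :
    LoA L N (fun k => p k + p' k) (fun k => r k + r' k) (fun k => s k + s' k) = LoA L N p r s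
      + 2 * ((∑ m ∈ IM N, conj (s' m) * rhL N (fc fun t => ((P.w t * L.f t : ℝ) : ℂ)) (fun n => s n - fc L.zs n) m).re
        - L.p2 * (∑ m ∈ IM (N + 2), conj (p' m) * wm P.eta (fun n => p n - fc (fun t => (L.b2s t : ℂ)) n) m).re
        - L.p3 * (∑ m ∈ IM (N + 2), conj (r' m) * wm P.eta (fun n => r n - fc (fun t => (L.b3s t : ℂ)) n) m).re)
      + LoA0 L N p' r' s' := by
  have h1 := LQ_add N (fun n => fc_herm (fun t => P.w t * L.f t) n) (fun n => s n - fc L.zs n) s'
  have h2 := SQ_add P.eta (fun n => p n - fc (fun t => (L.b2s t : ℂ)) n) hp (le_refl (N + 2))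
  have h3 := SQ_add P.eta (fun n => r n - fc (fun t => (L.b3s t : ℂ)) n) hr (le_refl (N + 2))
  have e1 : (fun n => s n + s' n - fc L.zs n) = fun n => s n - fc L.zs n + s' n := by funext n; ring
  have e2 : (fun n => p n + p' n - fc (fun t => (L.b2s t : ℂ)) n) =
      fun n => p n - fc (fun t => (L.b2s t : ℂ)) n + p' n := by funext n; ring
  have e3 : (fun n => r n + r' n - fc (fun t => (L.b3s t : ℂ)) n) =
      fun n => r n - fc (fun t => (L.b3s t : ℂ)) n + r' n := by funext n; ring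
  unfold LoA LoA0
  simp only
  rw [e1, e2, e3, h1, h2, h3]
  ring

theorem Lo1A_add {N : ℕ} (p r s p' r' s' : ℤ → ℂ) :
    Lo1A L N (fun k => p k + p' k) (fun k => r k + r' k) (fun k => s k + s' k) = Lo1A L N p r s
      + 2 * ((∑ m ∈ IM N, conj (s' m) * rhL N (fc fun t => (L.f t : ℂ)) (fun n => s n - fc L.zs n) m).re
        - L.p2 * (∑ m ∈ IM N, conj (p' m) * (p m - fc (fun t => (L.b2s t : ℂ)) m)).re
        - L.p3 * (∑ m ∈ IM N, conj (r' m) * (r m - fc (fun t => (L.b3s t : ℂ)) m)).re)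
      + Lo1A0 L N p' r' s' := by
  have h1 := LQ_add N (fun n => fc_herm L.f n) (fun n => s n - fc L.zs n) s'
  have h2 := S1Q_add (M := N) (fun n => p n - fc (fun t => (L.b2s t : ℂ)) n) p'
  have h3 := S1Q_add (M := N) (fun n => r n - fc (fun t => (L.b3s t : ℂ)) n) r'
  have e1 : (fun n => s n + s' n - fc L.zs n) = fun n => s n - fc L.zs n + s' n := by funext n; ring
  have e2 : (fun n => p n + p' n - fc (fun t => (L.b2s t : ℂ)) n) =
      fun n => p n - fc (fun t => (L.b2s t : ℂ)) n + p' n := by funext n; ring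
  have e3 : (fun n => r n + r' n - fc (fun t => (L.b3s t : ℂ)) n) =
      fun n => r n - fc (fun t => (L.b3s t : ℂ)) n + r' n := by funext n; ring
  unfold Lo1A Lo1A0
  simp only
  rw [e1, e2, e3, h1, h2, h3]
  ring

/-- disjoint supports -/
theorem cross_zero {N K' : ℕ} {u t : ℤ → ℂ} (hu : Sup K' u) (ht : ∀ n : ℤ, |n| ≤ (K' : ℤ) → t n = 0) :
    ∑ m ∈ IM N, conj (t m) * u m = 0 := by
  refine Finset.sum_eq_zero fun m _ => ?_
  by_cases h : m ∈ Finset.Icc (-(K' : ℤ)) K'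
  · rw [Finset.mem_Icc] at h
    rw [ht m (abs_le.2 h), map_zero, zero_mul]
  · rw [hu m h, mul_zero]

/-- the near functional on a sum; the tails of `p` vanish at `0` -/
theorem NrLA_add {N : ℕ} (p r s p' r' s' : ℤ → ℂ) (h0 : p' 0 = 0) :
    NrLA L N (fun k => p k + p' k) (fun k => r k + r' k) (fun k => s k + s' k) = NrLA L N p r s
      + (∑ m ∈ IM N, (conj (p' m) * (om * fc P.u1 m + om ^ 2 * fc P.u2 m)
        + conj (r' m) * (conj (kq 2) * fc P.u1 m + kq 2 * fc P.u2 m) + conj (s' m) * (fc P.u1 m - fc P.u2 m))).re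
      + ((∑ m ∈ IM N, conj (s' m) * rhL N (fc fun t => (L.f t : ℂ)) (fun n => s n - fc L.zs n) m).re
        - L.p2 * (∑ m ∈ IM N, conj (p' m) * (p m - fc (fun t => (L.b2s t : ℂ)) m)).re
        - L.p3 * (∑ m ∈ IM N, conj (r' m) * (r m - fc (fun t => (L.b3s t : ℂ)) m)).re)
      + 3 / 2 * (∑ m ∈ IM N, conj (p' m) * p m).re
      + (1 / 2 * Lo1A0 L N p' r' s' + 3 / 4 * S1Q N p') := by
  have h1 := g_lin N p' r' s' (fc P.u1) (fc P.u2)
  have h2 := Lo1A_add L (N := N) p r s p' r' s'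
  have h3 := S1Q_add (M := N) p p'
  have t1 : ∑ n ∈ IM N, g1A (fun k => p k + p' k) (fun k => r k + r' k) (fun k => s k + s' k) n
        * conj (fc P.u1 n) = ∑ n ∈ IM N, g1A p r s n * conj (fc P.u1 n)
        + ∑ n ∈ IM N, g1H p' r' s' n * conj (fc P.u1 n) := by
    rw [← Finset.sum_add_distrib]
    exact Finset.sum_congr rfl fun n _ => by rw [g1A_add]; ring
  have t2 : ∑ n ∈ IM N, g2A (fun k => p k + p' k) (fun k => r k + r' k) (fun k => s k + s' k) n
        * conj (fc P.u2 n) = ∑ n ∈ IM N, g2A p r s n * conj (fc P.u2 n)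
        + ∑ n ∈ IM N, g2H p' r' s' n * conj (fc P.u2 n) := by
    rw [← Finset.sum_add_distrib]
    exact Finset.sum_congr rfl fun n _ => by rw [g2A_add]; ring
  rw [← h1]
  unfold NrLA
  rw [t1, t2, h2, h3, Complex.add_re, Complex.add_re]
  simp only [h0, add_zero]
  ring

end

/-- the near quantity with free directions on a sum -/
theorem NrA_add (d1 d2 : ℝ → ℂ) {N : ℕ} (p r s p' r' s' : ℤ → ℂ) (h0 : p' 0 = 0) :
    NrA d1 d2 N (fun k => p k + p' k) (fun k => r k + r' k) (fun k => s k + s' k) = NrA d1 d2 N p r s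
      + (∑ m ∈ IM N, (conj (p' m) * (om * fc d1 m + om ^ 2 * fc d2 m)
        + conj (r' m) * (conj (kq 2) * fc d1 m + kq 2 * fc d2 m) + conj (s' m) * (fc d1 m - fc d2 m))).re
      + 3 / 2 * (∑ m ∈ IM N, conj (p' m) * p m).re + 3 / 4 * S1Q N p' := by
  have h1 := g_lin N p' r' s' (fc d1) (fc d2)
  have h3 := S1Q_add (M := N) p p'
  have t1 : ∑ n ∈ IM N, g1A (fun k => p k + p' k) (fun k => r k + r' k) (fun k => s k + s' k) n
        * conj (fc d1 n) = ∑ n ∈ IM N, g1A p r s n * conj (fc d1 n) + ∑ n ∈ IM N, g1H p' r' s' n * conj (fc d1 n) := by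
    rw [← Finset.sum_add_distrib]
    exact Finset.sum_congr rfl fun n _ => by rw [g1A_add]; ring
  have t2 : ∑ n ∈ IM N, g2A (fun k => p k + p' k) (fun k => r k + r' k) (fun k => s k + s' k) n
        * conj (fc d2 n) = ∑ n ∈ IM N, g2A p r s n * conj (fc d2 n) + ∑ n ∈ IM N, g2H p' r' s' n * conj (fc d2 n) := by
    rw [← Finset.sum_add_distrib]
    exact Finset.sum_congr rfl fun n _ => by rw [g2A_add]; ring
  unfold S1Q at h3 ⊢
  rw [← h1]
  unfold NrA
  rw [t1, t2, h3, Complex.add_re, Complex.add_re]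
  simp only [h0, add_zero]
  ring

end Pool.Agent.Helper43.CL
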