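import Pool.Agent.Helper30.SH.ZRow4
import Pool.Agent.Helper38.SH.O1
import Pool.Agent.Helper55.SH.LoForm
import Pool.Agent.Helper64.SH.Mu
import Pool.Agent.Helper95.SH.HeadT

/-!
# Project RC, SHARP, cell engine: the account of `HG`

`HG_sum`: `HG` as the sum of the blocks with row theorems.
-/

set_option autoImplicit false

open MeasureTheory Set Filter Topology

namespace Helper43.CL

open Helper49.LT hiding sg
open Helper49.RC (om)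
open Helper95.RC
open Helper95.SH
open Helper49.Sharp
open Helper56.RC (fc)
open Helper41.SH (IA inv trp)
open Helper38.SH (O1F)
open Helper30.SH (ZL LA_rows)
open Pool.Agent.Helper64.SH (rwN NrA_eq NrLA_eq)
open Helper55.SH (BQ SQ_BQ S1Q_BQ BQ_lin BQ_win BQ_rows LQ_rows LQ_lin cv zA zB wt2)

section

variable {P : Par} {Θ1 Θ1' Θ2 Θ2' : ℝ → ℝ}

/-- the aligned length of the families -/
theorem eAA_e0I (h1 : IA Θ1 Θ1') (h2 : IA Θ2 Θ2') (e1 : P.ph1 = inv Θ1) (e2 : P.ph2 = inv Θ2) (N : ℕ)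
    (p r s : ℤ → ℂ) : (eAA P N p r s 0).re = e0I P Θ1 Θ1' Θ2 Θ2' N p r s := by
  unfold eAA e0I
  rw [e1, e2, eF_inv h1 _ _ (by norm_num), eF_inv h2 _ _ (by norm_num), wF_zero, wF_zero]
  have hz : ∀ x : ℝ, (((0 : ℤ) : ℂ) ^ 2 - 1) * -(x : ℂ) = (x : ℂ) := fun x => by push_cast; ring
  rw [hz, hz, Complex.add_re, Complex.ofReal_re, Complex.ofReal_re]

theorem LB_SQ (P : Par) (N : ℕ) (p r : ℤ → ℂ) :
    Helper30.SH.LB P N p r = (9 - P.cs) * (SQ (N + 2) P.eta p + SQ (N + 2) P.eta r) := by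
  unfold Helper30.SH.LB SQ
  rw [Finset.sum_add_distrib, Complex.add_re]

end

/-- **THE ACCOUNT OF `HG`** -/
theorem HG_sum {c : CD} (ok : c.OK) (h0 : c.P.a0 = fun _ => 0) {N : ℕ} {p r s : ℤ → ℂ} (a : Arr N p r s) :
    HG c N p r s = O1F c.P N p r
      + 2 * (H0A c.P p r + c.P.lam) * e0I c.P c.Th1 c.Th1' c.Th2 c.Th2' N p r s
      + (2 * ZL c.P N p r s + Helper30.SH.LB c.P N p r)
      + NF c.P.ps (N + 3) (C1 c.P p r s) (C2 c.P p r s)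
      + (c.P.m - c.P.lam) * LoA c.L N p r s + c.mu1 / 2 * Lo1A c.L N p r s
      + c.mu1 * (rwN N (fc c.P.u1) (fc c.P.u2) p r s + ((p 0).re - 2 - 1 / 5))
      + c.mu2 * (rwN N (fc c.d1) (fc c.d2) p r s + ((p 0).re - 2 - 1 / 5))
      + 3 / 4 * (c.mu1 + c.mu2) * S1Q N p
      - c.Q (s (-3)) (s (-5)) := by
  have e := eAA_e0I (P := c.P) ok.i1 ok.i2 ok.e1 ok.e2 N p r s
  have l := LA_rows ok.st.reg h0 a.sp a.sr a.ss
  rw [e] at l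
  unfold HG
  rw [l, NrLA_eq, NrA_eq]
  unfold O1F
  ring

/-! ### the quadratic local part in one weight -/

section

variable {M N : ℕ}

/-- a combination of `w x²` and `x²` -/
theorem SQ_S1Q {η : ℂ} {u : ℤ → ℂ} (a b : ℝ) (h : M ≤ N) (hu : Sup M u) :
    a * SQ (N + 2) η u + b * S1Q N u = BQ M (a + b) ((a : ℂ) * η) u := by
  have e := BQ_lin M a b 1 1 η 0 u
  rw [SQ_BQ, S1Q_BQ, BQ_win (K := M) (N := N + 2) (by omega) 1 η hu, BQ_win (K := M) (N := N) h 1 0 hu, ← e]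
  rw [mul_one, mul_one, mul_zero, add_zero]

end

/-- the weight of the quadratic part of `z` -/
noncomputable def Fm (c : CD) (n : ℤ) : ℂ := ((c.P.m - c.P.lam : ℝ) : ℂ) * Fw c n + ((c.mu1 / 2 : ℝ) : ℂ) * Fn c n

/-- the quadratic local parts -/
theorem lo_sum (c : CD) {N Mp Mr : ℕ} {p r s : ℤ → ℂ} (hp : Sup Mp p) (hr : Sup Mr r) (hzp : Sup Mp (zep c p))
    (hzr : Sup Mr (zer c r)) (h1 : Mp ≤ N) (h2 : Mr ≤ N) :
    (c.P.m - c.P.lam) * LoA c.L N p r s + c.mu1 / 2 * Lo1A c.L N p r s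
      + (9 - c.P.cs) * (SQ (N + 2) c.P.eta p + SQ (N + 2) c.P.eta r) + 3 / 4 * (c.mu1 + c.mu2) * S1Q N p =
    LQ N (Fm c) (zes c s)
      + BQ Mp (9 - c.P.cs + 3 / 4 * (c.mu1 + c.mu2)) (((9 - c.P.cs : ℝ) : ℂ) * c.P.eta) p
      + BQ Mr (9 - c.P.cs) (((9 - c.P.cs : ℝ) : ℂ) * c.P.eta) r
      - BQ Mp (c.L.p2 * (c.P.m - c.P.lam) + c.L.p2 * (c.mu1 / 2)) (((c.L.p2 * (c.P.m - c.P.lam) : ℝ) : ℂ) * c.P.eta)
        (zep c p)
      - BQ Mr (c.L.p3 * (c.P.m - c.P.lam) + c.L.p3 * (c.mu1 / 2)) (((c.L.p3 * (c.P.m - c.P.lam) : ℝ) : ℂ) * c.P.eta)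
        (zer c r) := by
  have a1 := SQ_S1Q (η := c.P.eta) (9 - c.P.cs) (3 / 4 * (c.mu1 + c.mu2)) h1 hp
  have a2 := SQ_S1Q (η := c.P.eta) (9 - c.P.cs) 0 h2 hr
  have a3 := SQ_S1Q (η := c.P.eta) (c.L.p2 * (c.P.m - c.P.lam)) (c.L.p2 * (c.mu1 / 2)) h1 hzp
  have a4 := SQ_S1Q (η := c.P.eta) (c.L.p3 * (c.P.m - c.P.lam)) (c.L.p3 * (c.mu1 / 2)) h2 hzr
  have a5 := LQ_lin N (c.P.m - c.P.lam) (c.mu1 / 2) (Fw c) (Fn c) (zes c s)
  have e5 : LQ N (Fm c) (zes c s) = LQ N (fun n => ((c.P.m - c.P.lam : ℝ) : ℂ) * Fw c n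
      + ((c.mu1 / 2 : ℝ) : ℂ) * Fn c n) (zes c s) := rfl
  rw [zero_mul, add_zero, add_zero] at a2
  rw [e5, a5, ← a1, ← a2, ← a3, ← a4]
  have l1 : LoA c.L N p r s = LQ N (Fw c) (zes c s) - c.L.p2 * SQ (N + 2) c.P.eta (zep c p)
      - c.L.p3 * SQ (N + 2) c.P.eta (zer c r) := rfl
  have l2 : Lo1A c.L N p r s = LQ N (Fn c) (zes c s) - c.L.p2 * S1Q N (zep c p) - c.L.p3 * S1Q N (zer c r) := rfl
  rw [l1, l2]
  ring

/-- **THE ACCOUNT OF `HG`, merged** -/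
theorem HG_sum2 {c : CD} (ok : c.OK) (h0 : c.P.a0 = fun _ => 0) {N Mp Mr : ℕ} {p r s : ℤ → ℂ} (a : Arr N p r s)
    (hp : Sup Mp p) (hr : Sup Mr r) (hzp : Sup Mp (zep c p)) (hzr : Sup Mr (zer c r)) (h1 : Mp ≤ N) (h2 : Mr ≤ N) :
    HG c N p r s = O1F c.P N p r
      + 2 * (H0A c.P p r + c.P.lam) * e0I c.P c.Th1 c.Th1' c.Th2 c.Th2' N p r s
      + 2 * ZL c.P N p r s
      + NF c.P.ps (N + 3) (C1 c.P p r s) (C2 c.P p r s)
      + LQ N (Fm c) (zes c s)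
      + BQ Mp (9 - c.P.cs + 3 / 4 * (c.mu1 + c.mu2)) (((9 - c.P.cs : ℝ) : ℂ) * c.P.eta) p
      + BQ Mr (9 - c.P.cs) (((9 - c.P.cs : ℝ) : ℂ) * c.P.eta) r
      - BQ Mp (c.L.p2 * (c.P.m - c.P.lam) + c.L.p2 * (c.mu1 / 2)) (((c.L.p2 * (c.P.m - c.P.lam) : ℝ) : ℂ) * c.P.eta)
        (zep c p)
      - BQ Mr (c.L.p3 * (c.P.m - c.P.lam) + c.L.p3 * (c.mu1 / 2)) (((c.L.p3 * (c.P.m - c.P.lam) : ℝ) : ℂ) * c.P.eta)
        (zer c r)
      + c.mu1 * rwN N (fc c.P.u1) (fc c.P.u2) p r s + c.mu2 * rwN N (fc c.d1) (fc c.d2) p r s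
      + (c.mu1 + c.mu2) * ((p 0).re - 2 - 1 / 5)
      - c.Q (s (-3)) (s (-5)) := by
  have e1 := HG_sum ok h0 a
  have e2 := lo_sum c (s := s) hp hr hzp hzr h1 h2
  rw [LB_SQ] at e1
  rw [e1]
  linear_combination e2

end Helper43.CL
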