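import Pool.Agent.Helper25.SH.MatU
import Pool.Agent.Helper43.CL.Dig

/-!
# Project RC, SHARP, cell engine: the end of a cell

Certified blocks, the diagonal part and the kernel check of the matrix give `0 ≤ g + h`.
-/

set_option autoImplicit false

namespace Helper43.CL

open Helper95.SH
open Helper25.SH.Mat

/-- **THE END, with helper25's check**: all errors are natural numbers -/
theorem LB.done {b r mm N e T E F : ℕ} {L : List Blk} {P D : List ℕ} {S : ℝ} {g h : (ℕ → ℝ) → ℝ} (hS : 0 < S)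
    (l : LB N S g (VL b N L) (E : ℝ)) (d : LB N S h (Helper25.SH.Mat.dgv N P D) (F : ℝ))
    (c : ok b r mm N e T L P D = true)
    (hE : Nat.ble (Nat.add (Nat.add E F) (Nat.mul N (Nat.succ e))) T = true) (v : ℕ → ℝ) (hv : v 0 = 1) :
    0 ≤ g v + h v := by
  refine LB.fin (b := b) (e := e) (T := T) (L := L) (P := P) (D := D) hS l d (fun v => sound c v) ?_ v hv
  have h1 : E + F + N * (e + 1) ≤ T := Nat.le_of_ble_eq_true hE
  exact_mod_cast h1

/-- the same with the Cholesky block in front of the list -/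
theorem LB.doneC {b r mm N e T E F cc cm : ℕ} {CA : List ℕ} {L : List Blk} {P D : List ℕ} {S : ℝ}
    {g h : (ℕ → ℝ) → ℝ} (hS : 0 < S)
    (l : LB N S g (VL b N L) (E : ℝ)) (d : LB N S h (Helper25.SH.Mat.dgv N P D) (F : ℝ))
    (c : ok b r mm N e T (.sq true cc cm CA :: L) P D = true)
    (hE : Nat.ble (Nat.add (Nat.add E F) (Nat.mul N (Nat.succ e))) T = true) (v : ℕ → ℝ) (hv : v 0 = 1) :
    0 ≤ g v + h v :=
  LB.done hS (LB.addChol cc cm CA l) d c hE v hv

/-- joining with errors as natural numbers -/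
theorem LB.consN {b N E F : ℕ} {S : ℝ} {g h : (ℕ → ℝ) → ℝ} {B : Blk} {L : List Blk}
    (k : LB N S g (fun v => Blk.val b N v B) (E : ℝ)) (l : LB N S h (VL b N L) (F : ℝ)) :
    LB N S (fun v => g v + h v) (VL b N (B :: L)) ((Nat.add E F : ℕ) : ℝ) := by
  refine LB.mono (LB.cons k l) (fun _ _ => le_rfl) ?_
  show _ ≤ ((E + F : ℕ) : ℝ)
  rw [Nat.cast_add]

theorem LB.appendN {b N E F : ℕ} {S : ℝ} {g h : (ℕ → ℝ) → ℝ} {L L' : List Blk}
    (k : LB N S g (VL b N L) (E : ℝ)) (l : LB N S h (VL b N L') (F : ℝ)) :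
    LB N S (fun v => g v + h v) (VL b N (L ++ L')) ((Nat.add E F : ℕ) : ℝ) := by
  refine LB.mono (LB.append k l) (fun _ _ => le_rfl) ?_
  show _ ≤ ((E + F : ℕ) : ℝ)
  rw [Nat.cast_add]

/-- no block: a form which is nonnegative -/
theorem LB.nilN {b N : ℕ} {S : ℝ} : LB N S (fun _ => 0) (VL b N []) ((0 : ℕ) : ℝ) := by
  rw [Nat.cast_zero]
  exact LB.nil b N S

/-- a family of lists of blocks (one per row of `D2`, for instance) -/
theorem LB.family {b N : ℕ} {S : ℝ} (n : ℕ) {g : ℕ → (ℕ → ℝ) → ℝ} {L : ℕ → List Blk} {E : ℕ → ℕ}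
    (k : ∀ i < n, LB N S (g i) (VL b N (L i)) (E i : ℝ)) :
    LB N S (fun v => ∑ i ∈ Finset.range n, g i v) (VL b N ((List.range n).flatMap L))
      ((∑ i ∈ Finset.range n, E i : ℕ) : ℝ) := by
  induction n with
  | zero =>
    refine LB.congr (LB.nilN (b := b) (N := N) (S := S)) (fun v _ => ?_) fun v _ => rfl
    simp
  | succ n ih =>
    have h1 := ih fun i hi => k i (by omega)
    have h2 := LB.append h1 (k n (by omega))
    refine LB.mono (LB.congr h2 (fun v _ => ?_) fun v _ => rfl) (fun v _ => le_of_eq ?_) ?_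
    · rw [Finset.sum_range_succ]
    · rw [List.range_succ, List.flatMap_append]
      simp
    · rw [Finset.sum_range_succ, Nat.cast_add]

end Helper43.CL
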