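import Pool.Agent.Helper25.SH.Mat
import Pool.Agent.Helper43.CL.LBk

/-!
# Project RC, SHARP, cell engine: certified blocks in the format of the matrix check

Every block of helper25's check (`Blk.sq`, `Blk.bl`) from the rows of real functionals; lists of blocks; the Cholesky block; the end.
All errors are explicit sums, to be compared with natural numbers.
-/

set_option autoImplicit false

namespace Helper43.CL

open Helper95.SH
open Helper25.SH.Mat

section

variable {b N m : ℕ} {G q q1 q2 : ℝ} {w y : ℕ → ℝ} {X Y : ℕ → (ℕ → ℝ) → ℝ} {A B : List ℕ} {e e1 e2 a a' : ℕ → ℝ}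

/-- the error of a product block, weight `c` -/
noncomputable def eP (N m : ℕ) (c : ℝ) (a a' e1 e2 : ℕ → ℝ) : ℝ :=
  c * (N * ∑ k ∈ Finset.range m, (a k * e2 k + a' k * e1 k + e1 k * e2 k))

theorem IF_const (N m : ℕ) (c : ℤ) (R T : ℕ → ℕ → ℤ) (v : ℕ → ℝ) :
    IF N m (fun _ => c) R T v = (c : ℝ) * ∑ k ∈ Finset.range m, iv N (R k) v * iv N (T k) v := by
  unfold IF
  rw [Finset.mul_sum]

/-- the integer weight of a block `bl` -/
def zW (s : Bool) (c : ℕ) : ℤ := bif s then -(2 * c) else 2 * c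

theorem zW_eq (s : Bool) (c : ℕ) : (zW s c : ℝ) = sgr s * (2 * c) := by
  cases s <;> simp [zW, sgr]

theorem zW_abs (s : Bool) (c : ℕ) : |(zW s c : ℝ)| = 2 * c := by
  have h : (0 : ℝ) ≤ 2 * c := by positivity
  cases s
  · simp only [zW, cond_false]
    push_cast
    exact abs_of_nonneg h
  · simp only [zW, cond_true]
    push_cast
    rw [abs_neg]
    exact abs_of_nonneg h

/-- **a product block**: `g = ∑ w_k X_k Y_k`, `G w_k = ± 2 c` -/
theorem LB.bl {s : Bool} {c : ℕ} (h : ∀ k < m, LR N q1 (X k) (row b A k) (e1 k))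
    (h' : ∀ k < m, LR N q2 (Y k) (row b B k) (e2 k)) (hA : ∀ k < m, ∀ i < N, |(row b A k i : ℝ)| ≤ a k)
    (hB : ∀ k < m, ∀ i < N, |(row b B k i : ℝ)| ≤ a' k) (h1 : ∀ k < m, 0 ≤ e1 k) (h2 : ∀ k < m, 0 ≤ e2 k)
    (hA0 : ∀ k < m, 0 ≤ a k) (hB0 : ∀ k < m, 0 ≤ a' k) (hw : ∀ k < m, G * w k = sgr s * (2 * c)) :
    LB N (G * (q1 * q2)) (fun v => ∑ k ∈ Finset.range m, w k * (X k v * Y k v))
      (fun v => Blk.val b N v (.bl s c m A B)) (eP N m (2 * c) a a' e1 e2) := by
  have k := LB.rows' (G := G) (W := fun _ => zW s c) h h' hA hB h1 h2 hA0 hB0 (fun j hj => by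
    rw [zW_eq]; exact hw j hj)
  refine LB.mono k (fun v _ => le_of_eq ?_) (le_of_eq ?_)
  · rw [IF_const, zW_eq]
    show sgr s * (2 * c * ∑ k ∈ Finset.range m, iv N (row b A k) v * iv N (row b B k) v) = _
    ring
  · unfold eP
    rw [Finset.mul_sum, Finset.mul_sum]
    refine Finset.sum_congr rfl fun j _ => ?_
    rw [zW_abs]

/-- **a block of negative squares**: `g = - ∑ w_k X_k²`, `G w_k ≤ c` -/
theorem LB.sqn {c : ℕ} (h : ∀ k < m, LR N q (X k) (row b A k) (e k)) (hA : ∀ k < m, ∀ i < N, |(row b A k i : ℝ)| ≤ a k)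
    (h1 : ∀ k < m, 0 ≤ e k) (hA0 : ∀ k < m, 0 ≤ a k) (hw : ∀ k < m, G * w k ≤ c) :
    LB N (G * (q * q)) (fun v => -∑ k ∈ Finset.range m, w k * X k v ^ 2)
      (fun v => Blk.val b N v (.sq true c m A)) (eP N m c a a e e) := by
  have k := LB.negsq' (G := G) (W := fun _ => (c : ℤ)) h hA h1 hA0 (fun j hj => by
    push_cast; exact hw j hj)
  refine LB.mono k (fun v _ => le_of_eq ?_) (le_of_eq ?_)
  · rw [IF_const]
    show sgr true * (c * ∑ k ∈ Finset.range m, iv N (row b A k) v ^ 2) = _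
    simp only [sgr, cond_true, pow_two]
    push_cast
    ring
  · unfold eP
    rw [Finset.mul_sum, Finset.mul_sum]
    refine Finset.sum_congr rfl fun j _ => ?_
    have : |(((c : ℕ) : ℤ) : ℝ)| = c := by push_cast; exact abs_of_nonneg (Nat.cast_nonneg _)
    rw [this]
    ring

/-- **a block of positive squares**: `g = ∑ w_k X_k²`, `c ≤ G w_k` -/
theorem LB.sqp {c : ℕ} (h : ∀ k < m, LR N q (X k) (row b A k) (e k)) (hA : ∀ k < m, ∀ i < N, |(row b A k i : ℝ)| ≤ a k)
    (h1 : ∀ k < m, 0 ≤ e k) (hA0 : ∀ k < m, 0 ≤ a k) (hw : ∀ k < m, (c : ℝ) ≤ G * w k) :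
    LB N (G * (q * q)) (fun v => ∑ k ∈ Finset.range m, w k * X k v ^ 2)
      (fun v => Blk.val b N v (.sq false c m A)) (eP N m c a a e e) := by
  intro v hv
  have hr := rows_err (Finset.range m) (n := N) (q1 := fun _ => q) (q2 := fun _ => q) (e1 := e) (e2 := e)
    (A := a) (B := a) (w := fun _ => (c : ℝ)) (X := X) (Y := X) (R := row b A) (T := row b A)
    (fun c hc => h c (Finset.mem_range.1 hc)) (fun c hc => h c (Finset.mem_range.1 hc))
    (fun c hc => hA c (Finset.mem_range.1 hc)) (fun c hc => hA c (Finset.mem_range.1 hc))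
    (fun c hc => h1 c (Finset.mem_range.1 hc)) (fun c hc => h1 c (Finset.mem_range.1 hc))
    (fun c hc => hA0 c (Finset.mem_range.1 hc)) (fun c hc => hA0 c (Finset.mem_range.1 hc)) hv
  have e0 : ∑ k ∈ Finset.range m, (c : ℝ) * (q * q * (X k v * X k v)) ≤
      G * (q * q) * ∑ k ∈ Finset.range m, w k * X k v ^ 2 := by
    rw [Finset.mul_sum]
    refine Finset.sum_le_sum fun k hk => ?_
    have h3 : 0 ≤ q * q * (X k v * X k v) := mul_nonneg (mul_self_nonneg _) (mul_self_nonneg _)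
    calc (c : ℝ) * (q * q * (X k v * X k v)) ≤ G * w k * (q * q * (X k v * X k v)) :=
          mul_le_mul_of_nonneg_right (hw k (Finset.mem_range.1 hk)) h3
      _ = _ := by ring
  have e2 : (∑ k ∈ Finset.range m, |(c : ℝ)| * (N * (a k * e k + a k * e k + e k * e k))) = eP N m c a a e e := by
    unfold eP
    rw [abs_of_nonneg (Nat.cast_nonneg _), Finset.mul_sum, Finset.mul_sum]
  rw [e2] at hr
  have e3 : Blk.val b N v (.sq false c m A) =
      ∑ k ∈ Finset.range m, (c : ℝ) * (iv N (row b A k) v * iv N (row b A k) v) := by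
    show sgr false * (c * ∑ k ∈ Finset.range m, iv N (row b A k) v ^ 2) = _
    simp only [sgr, cond_false, pow_two]
    rw [Finset.mul_sum]
    ring
  have := (abs_le.1 hr).1
  beta_reduce at this ⊢
  rw [e3]
  linarith

/-- **negative squares with a weight in the second row**: `Y_k = y_k X_k`, `G w_k ≤ 2 c y_k` -/
theorem LB.bln {c : ℕ} (h : ∀ k < m, LR N q1 (X k) (row b A k) (e1 k))
    (h' : ∀ k < m, LR N q2 (fun v => y k * X k v) (row b B k) (e2 k)) (hA : ∀ k < m, ∀ i < N, |(row b A k i : ℝ)| ≤ a k)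
    (hB : ∀ k < m, ∀ i < N, |(row b B k i : ℝ)| ≤ a' k) (h1 : ∀ k < m, 0 ≤ e1 k) (h2 : ∀ k < m, 0 ≤ e2 k)
    (hA0 : ∀ k < m, 0 ≤ a k) (hB0 : ∀ k < m, 0 ≤ a' k) (hG : 0 < G) (hq : 0 ≤ q1 * q2)
    (hw : ∀ k < m, G * w k ≤ 2 * c * y k) :
    LB N (G * (q1 * q2)) (fun v => -∑ k ∈ Finset.range m, w k * X k v ^ 2)
      (fun v => Blk.val b N v (.bl true c m A B)) (eP N m (2 * c) a a' e1 e2) := by
  have k := LB.bl (s := true) (c := c) (G := G) (w := fun _ => -(2 * c / G)) h h' hA hB h1 h2 hA0 hB0 (fun j _ => by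
    simp only [sgr, cond_true]
    field_simp)
  refine LB.le k (mul_nonneg hG.le hq) fun v _ => ?_
  rw [← Finset.sum_neg_distrib]
  refine Finset.sum_le_sum fun j hj => ?_
  have h3 := hw j (Finset.mem_range.1 hj)
  have h4 : w j ≤ 2 * c / G * y j := by
    rw [div_mul_eq_mul_div, le_div_iff₀ hG]
    linarith
  have h5 := mul_le_mul_of_nonneg_right h4 (sq_nonneg (X j v))
  have e3 : -(2 * (c : ℝ) / G) * (X j v * (y j * X j v)) = -(2 * c / G * y j * X j v ^ 2) := by ring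
  rw [e3]
  linarith

end

/-- the Cholesky block -/
theorem LB.chol (b N : ℕ) (S : ℝ) (c m : ℕ) (A : List ℕ) :
    LB N S (fun _ => 0) (fun v => Blk.val b N v (.sq true c m A)) 0 := by
  intro v _
  show sgr true * (c * ∑ k ∈ Finset.range m, iv N (row b A k) v ^ 2) - 0 * sqv N v ≤ S * 0
  have h : 0 ≤ (c : ℝ) * ∑ k ∈ Finset.range m, iv N (row b A k) v ^ 2 := by positivity
  simp only [sgr, cond_true]
  linarith

/-! ### lists of blocks -/

/-- the integer form of a list of blocks -/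
noncomputable def VL (b N : ℕ) (L : List Blk) (v : ℕ → ℝ) : ℝ := (L.map (Blk.val b N v)).sum

theorem LB.nil (b N : ℕ) (S : ℝ) : LB N S (fun _ => 0) (VL b N []) 0 := fun v _ => by simp [VL]

theorem LB.cons {b N : ℕ} {S E F : ℝ} {g h : (ℕ → ℝ) → ℝ} {B : Blk} {L : List Blk}
    (k : LB N S g (fun v => Blk.val b N v B) E) (l : LB N S h (VL b N L) F) :
    LB N S (fun v => g v + h v) (VL b N (B :: L)) (E + F) := by
  refine LB.congr (LB.add k l) (fun v _ => rfl) fun v _ => ?_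
  simp [VL]

theorem LB.append {b N : ℕ} {S E F : ℝ} {g h : (ℕ → ℝ) → ℝ} {L L' : List Blk}
    (k : LB N S g (VL b N L) E) (l : LB N S h (VL b N L') F) :
    LB N S (fun v => g v + h v) (VL b N (L ++ L')) (E + F) := by
  refine LB.congr (LB.add k l) (fun v _ => rfl) fun v _ => ?_
  simp [VL]

theorem LB.single {b N : ℕ} {S E : ℝ} {g : (ℕ → ℝ) → ℝ} {B : Blk}
    (k : LB N S g (fun v => Blk.val b N v B) E) : LB N S g (VL b N [B]) E := by
  refine LB.congr k (fun v _ => rfl) fun v _ => ?_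
  simp [VL]

/-- adding the Cholesky block -/
theorem LB.addChol {b N : ℕ} {S E : ℝ} {g : (ℕ → ℝ) → ℝ} {L : List Blk} (c m : ℕ) (A : List ℕ)
    (l : LB N S g (VL b N L) E) : LB N S g (VL b N (.sq true c m A :: L)) E := by
  refine LB.mono (LB.congr (LB.cons (LB.chol b N S c m A) l) (fun v _ => (zero_add (g v)).symm) fun v _ => rfl)
    (fun _ _ => le_rfl) (by rw [zero_add])

/-- the diagonal part from natural numbers: `g v = ∑ p_i v_i² - ∑ d_i v_i²`, `P_i ≤ S p_i`, `S d_i ≤ D_i` -/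
theorem LB.diagD {N : ℕ} {S : ℝ} {p d : ℕ → ℝ} {P D : List ℕ} (hp : ∀ i < N, (P.getD i 0 : ℝ) ≤ S * p i)
    (hd : ∀ i < N, S * d i ≤ (D.getD i 0 : ℝ)) :
    LB N S (fun v => ∑ i ∈ Finset.range N, (p i - d i) * v i ^ 2) (Helper25.SH.Mat.dgv N P D) 0 := by
  intro v _
  unfold Helper25.SH.Mat.dgv
  rw [zero_mul, sub_zero, Finset.mul_sum]
  refine Finset.sum_le_sum fun i hi => ?_
  rw [← mul_assoc]
  refine mul_le_mul_of_nonneg_right ?_ (sq_nonneg _)
  have h1 := hp i (Finset.mem_range.1 hi)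
  have h2 := hd i (Finset.mem_range.1 hi)
  rw [mul_sub]
  linarith

/-- **THE END**: the matrix check gives `0 ≤ g + h` (`c` = helper25's `sound`) -/
theorem LB.fin {b N e T : ℕ} {L : List Blk} {P D : List ℕ} {S E F : ℝ} {g h : (ℕ → ℝ) → ℝ} (hS : 0 < S)
    (l : LB N S g (VL b N L) E) (d : LB N S h (Helper25.SH.Mat.dgv N P D) F)
    (c : ∀ v, ((T : ℝ) - N * (e + 1)) * sqv N v ≤ (L.map (Blk.val b N v)).sum + Helper25.SH.Mat.dgv N P D v)
    (hE : E + F + N * (e + 1) ≤ T) (v : ℕ → ℝ) (hv : v 0 = 1) :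
    0 ≤ g v + h v := by
  refine LB.nonneg (LB.add l d) hS (fun v _ => ?_) v hv
  have k := c v
  have k2 := sqv_nonneg N v
  have k3 : (E + F) * sqv N v ≤ ((T : ℝ) - N * (e + 1)) * sqv N v :=
    mul_le_mul_of_nonneg_right (by linarith) k2
  exact k3.trans k

end Helper43.CL
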