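import Pool.Agent.Helper30.SH.ZRow4
import Pool.Agent.Helper64.SH.UR
import Pool.Agent.Helper49.RC.Comb4
import Pool.Agent.Helper43.CL.Dig

/-!
# Project RC, SHARP, cell engine: the linear functional (block LIN)

`2 ZL + mu1 rwN (u1, u2) + mu2 rwN (d1, d2) + (mu1 + mu2) (p 0 - 2 - 1/5)` as ONE packed column, checked against the tables.
-/

set_option autoImplicit false

open MeasureTheory Set Filter Topology

namespace Helper43.CL

open Helper49.LT hiding sg
open Helper95.SH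
open Helper95.RC
open Helper49.Sharp
open Helper56.RC (fc)
open Helper87.RC (BM)
open Helper54.RC.Fast (FP PF AP)
open Helper30.SH (ZL zRow okE ZL_LR fS fP fR fC)
open Pool.Agent.Helper64.SH (rwN muRow LR_mu_AP dR dI okUq okUq_sound pV_zero)
open Helper25.SH.Mat (row dg Blk Blk.val)

theorem bif_and {a b : Bool} : (bif a then b else false) = true ↔ a = true ∧ b = true := by
  cases a <;> simp

/-- the data of the linear functional -/
structure LinD where
  /-- packing of the column, of the tables `Z`, `u`, `d` -/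
  b : ℕ
  bz : ℕ
  bu : ℕ
  bd : ℕ
  /-- scale of all tables -/
  s : ℕ
  K : ℕ
  L : ℕ
  /-- `√3 q ≈ T` -/
  q : ℕ
  T : ℕ
  /-- `10^5 mu` -/
  m1 : ℤ
  m2 : ℤ
  /-- errors of the tables -/
  ez : ℕ
  eu : ℕ
  ed : ℕ
  /-- error of the column, and of everything -/
  t : ℕ
  e : ℕ
  pS : PF
  pP : PF
  pR : PF
  pC : PF
  u1 : FP
  u2 : FP
  d1 : FP
  d2 : FP

namespace LinD

variable (d : LinD)

/-- the common denominator -/
def F : ℕ := Nat.mul 2000000 d.q

/-- `5 m` times the row of a direction, nothing for `m = 0` -/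
def mt (K L q T b : ℕ) (m : ℤ) (x y : FP) (i : ℕ) : ℤ :=
  if m = 0 then 0 else 5 * m * muRow K L q T (Pool.Agent.Helper64.SH.dR b x) (Pool.Agent.Helper64.SH.dI b x)
    (Pool.Agent.Helper64.SH.dR b y) (Pool.Agent.Helper64.SH.dI b y) i

/-- the numerator of the entry `i` -/
def nu (i : ℕ) : ℤ :=
  Int.ofNat (Nat.mul 2 d.F) * zRow d.bz d.K d.L d.pS d.pP d.pR d.pC i
    + mt d.K d.L d.q d.T d.bu d.m1 d.u1 d.u2 i + mt d.K d.L d.q d.T d.bd d.m2 d.d1 d.d2 i
    + Int.ofNat (Nat.mul (Nat.mul 4 d.q) (Nat.pow 2 d.s)) *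
      (if i = 0 then -11 * (d.m1 + d.m2) else if i = bp d.K then 5 * (d.m1 + d.m2) else 0)

/-- the entry `x` of the column is right -/
def ent (M B Ft : ℕ) (x : ℕ) (i : ℕ) : Bool :=
  bif Nat.ble (Nat.succ x) M then
    Nat.ble (Int.natAbs (Int.ofNat d.F * (Int.ofNat x - Int.ofNat B) - d.nu i)) Ft else false

/-- all entries -/
def ents (M B Ft : ℕ) : List ℕ → ℕ → Bool
  | [], _ => true
  | x :: A, i => bif d.ent M B Ft x i then ents M B Ft A (Nat.succ i) else false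

/-- the numbers -/
def num : Bool :=
  bif okUq d.q d.T then bif Nat.ble 1 d.q then bif okE d.ez d.pS d.pP d.pR d.pC then
    Nat.ble (Nat.add (Nat.add (Nat.mul d.F (Nat.add (Nat.mul 4 d.ez) d.t))
      (Nat.mul (Nat.mul 5 d.m1.natAbs) (Nat.add (Nat.mul (Nat.mul 28 d.q) d.eu) (Nat.mul 16 (Nat.add (Nat.pow 2 d.s) d.eu)))))
      (Nat.mul (Nat.mul 5 d.m2.natAbs) (Nat.add (Nat.mul (Nat.mul 28 d.q) d.ed) (Nat.mul 16 (Nat.add (Nat.pow 2 d.s) d.ed)))))
      (Nat.mul d.F d.e)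
  else false else false else false

/-- **THE CHECK of the column `A`** -/
def ok (A : List ℕ) : Bool :=
  bif d.num then bif Nat.beq A.length (nt d.K d.L) then
    d.ents (Nat.pow 2 (Nat.succ d.b)) (Nat.pow 2 d.b) (Nat.mul d.F d.t) A 0 else false else false

variable {d}

theorem ents_spec {M B Ft : ℕ} {A : List ℕ} : ∀ {j : ℕ}, d.ents M B Ft A j = true → ∀ i < A.length,
    d.ent M B Ft (A.getD i 0) (j + i) = true := by
  induction A with
  | nil => intro j _ i hi; simp at hi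
  | cons x A ih =>
    intro j h i hi
    unfold ents at h
    have h1 : d.ent M B Ft x j = true := by
      cases h1 : d.ent M B Ft x j with
      | true => rfl
      | false => rw [h1] at h; simp at h
    rw [h1] at h
    cases i with
    | zero => exact h1
    | succ i =>
      have := ih (j := Nat.succ j) h i (by simpa using hi)
      rw [List.getD_cons_succ]
      have e : Nat.succ j + i = j + (i + 1) := by omega
      rw [← e]
      exact this

theorem ent_spec {b Ft x i : ℕ} (h : d.ent (Nat.pow 2 (Nat.succ b)) (Nat.pow 2 b) Ft x i = true) :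
    dg b x 0 = (x : ℤ) - 2 ^ b ∧ |(d.F : ℤ) * ((x : ℤ) - 2 ^ b) - d.nu i| ≤ Ft := by
  unfold ent at h
  have h1 : x < 2 ^ (b + 1) := by
    by_contra hc
    have : Nat.ble (Nat.succ x) (Nat.pow 2 (Nat.succ b)) = false := by
      cases h1 : Nat.ble (Nat.succ x) (Nat.pow 2 (Nat.succ b)) with
      | false => rfl
      | true => exact absurd (Nat.le_of_ble_eq_true h1) hc
    rw [this] at h
    simp at h
  have h2 : Nat.ble (Nat.succ x) (Nat.pow 2 (Nat.succ b)) = true := Nat.ble_eq_true_of_le h1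
  rw [h2] at h
  have h3 := Nat.le_of_ble_eq_true h
  refine ⟨?_, ?_⟩
  · unfold dg
    rw [pow_zero, Nat.div_one, Nat.mod_eq_of_lt h1]
    push_cast
    ring
  · have h4 : ((Int.natAbs (Int.ofNat d.F * (Int.ofNat x - Int.ofNat (Nat.pow 2 b)) - d.nu i) : ℕ) : ℤ) ≤ Ft := by
      exact_mod_cast h3
    rw [Int.natCast_natAbs] at h4
    have e : Int.ofNat d.F * (Int.ofNat x - Int.ofNat (Nat.pow 2 b)) - d.nu i =
        (d.F : ℤ) * ((x : ℤ) - 2 ^ b) - d.nu i := by
      have : Int.ofNat (Nat.pow 2 b) = (2 : ℤ) ^ b := by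
        show ((2 ^ b : ℕ) : ℤ) = _
        push_cast
        rfl
      rw [this]
      rfl
    rw [e] at h4
    exact h4

theorem mt_eq (K L q T b : ℕ) (m : ℤ) (x y : FP) (i : ℕ) :
    mt K L q T b m x y i = 5 * m * muRow K L q T (Pool.Agent.Helper64.SH.dR b x) (Pool.Agent.Helper64.SH.dI b x)
    (Pool.Agent.Helper64.SH.dR b y) (Pool.Agent.Helper64.SH.dI b y) i := by
  unfold mt
  by_cases h : m = 0
  · rw [if_pos h, h]; ring
  · rw [if_neg h]

theorem num_spec (h : d.num = true) : okUq d.q d.T = true ∧ 1 ≤ d.q ∧ okE d.ez d.pS d.pP d.pR d.pC = true ∧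
    d.F * (4 * d.ez + d.t) + 5 * d.m1.natAbs * (28 * d.q * d.eu + 16 * (2 ^ d.s + d.eu))
      + 5 * d.m2.natAbs * (28 * d.q * d.ed + 16 * (2 ^ d.s + d.ed)) ≤ d.F * d.e := by
  unfold num at h
  rw [bif_and, bif_and, bif_and] at h
  obtain ⟨h1, h2, h3, h4⟩ := h
  exact ⟨h1, Nat.le_of_ble_eq_true h2, h3, Nat.le_of_ble_eq_true h4⟩

end LinD

/-- back to a smaller scale, with a given integer row -/
theorem LR.down {n : ℕ} {q F E t e : ℝ} {X : (ℕ → ℝ) → ℝ} {R T : ℕ → ℤ} (hF : 0 < F) (h : LR n (F * q) X R E)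
    (hT : ∀ i < n, |F * T i - R i| ≤ F * t) (he : E + F * t ≤ F * e) : LR n q X T e := by
  obtain ⟨ρ, h1, h2⟩ := h
  refine ⟨ρ, h1, fun i hi => ?_⟩
  have a1 := h2 i hi
  have a2 := hT i hi
  have e1 : F * (q * ρ i - T i) = (F * q * ρ i - R i) - (F * T i - R i) := by ring
  have a3 : |F * (q * ρ i - T i)| ≤ E + F * t := by
    rw [e1]
    exact (abs_sub _ _).trans (add_le_add a1 a2)
  rw [abs_mul, abs_of_pos hF] at a3
  exact le_of_mul_le_mul_left (a3.trans he) hF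

/-- the constant part of the near quantities, exact -/
theorem LR_p0x (K L : ℕ) {m : ℤ} {μ Q : ℝ} {W : ℤ} (h : Q * μ = W * (5 * m)) :
    LR (nt K L) Q (fun v => μ * ((pV K L v 0).re - 2 - 1 / 5))
      (fun i => W * (if i = 0 then -11 * m else if i = bp K then 5 * m else 0)) 0 := by
  have hb : bp K < nt K L := by unfold nt; omega
  have hb0 : bp K ≠ 0 := by unfold bp; omega
  refine ⟨fun i => if i = 0 then -(11 / 5) * μ else if i = bp K then μ else 0, fun v hv => ?_, fun i _ => ?_⟩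
  · beta_reduce
    rw [pV_zero, Complex.ofReal_re]
    have e : ∀ i ∈ Finset.range (nt K L), (if i = 0 then -(11 / 5) * μ else if i = bp K then μ else 0) * v i =
        (if i = 0 then -(11 / 5) * μ * v 0 else 0) + (if i = bp K then μ * v (bp K) else 0) := by
      intro i _
      by_cases h0 : i = 0
      · rw [if_pos h0, if_pos h0, if_neg (by rw [h0]; exact fun h => hb0 h.symm), h0, add_zero]
      · by_cases h1 : i = bp K
        · rw [if_neg h0, if_pos h1, if_neg h0, if_pos h1, h1, zero_add]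
        · rw [if_neg h0, if_neg h1, if_neg h0, if_neg h1]; ring
    rw [Finset.sum_congr rfl e, Finset.sum_add_distrib, Finset.sum_ite_eq' (Finset.range (nt K L)) 0,
      Finset.sum_ite_eq' (Finset.range (nt K L)) (bp K), if_pos (Finset.mem_range.2 hb),
      if_pos (Finset.mem_range.2 (by omega)), hv]
    ring
  · refine le_of_eq ?_
    beta_reduce
    rw [abs_eq_zero, sub_eq_zero]
    by_cases h0 : i = 0
    · rw [if_pos h0, if_pos h0]
      push_cast
      linear_combination -(11 / 5) * h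
    · by_cases h1 : i = bp K
      · rw [if_neg h0, if_pos h1, if_neg h0, if_pos h1]
        push_cast
        linear_combination h
      · rw [if_neg h0, if_neg h1, if_neg h0, if_neg h1]
        push_cast
        ring

section

variable {d : LinD} {A : List ℕ} {c : CD} {N : ℕ}

/-- **THE LINEAR FUNCTIONAL AS ONE PACKED COLUMN** -/
theorem LR_lin (ok : d.ok A = true) (hr : c.P.Reg) (h0 : c.P.a0 = fun _ => 0) (hK : ¬ Even d.K) (hL : Even d.L)
    (hKN : d.K ≤ N) (hLN : d.L ≤ N) (b1 : BM c.d1 1) (b2 : BM c.d2 1)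
    (aS : AP d.bz d.s d.pS (fS c.P)) (aP : AP d.bz d.s d.pP (fP c.P)) (aR : AP d.bz d.s d.pR (fR c.P))
    (aC : AP d.bz d.s d.pC (fC c.P)) (u1 : AP d.bu d.s ⟨d.u1, d.eu⟩ c.P.u1) (u2 : AP d.bu d.s ⟨d.u2, d.eu⟩ c.P.u2)
    (k1 : AP d.bd d.s ⟨d.d1, d.ed⟩ c.d1) (k2 : AP d.bd d.s ⟨d.d2, d.ed⟩ c.d2)
    (m1 : c.mu1 = (d.m1 : ℝ) / 100000) (m2 : c.mu2 = (d.m2 : ℝ) / 100000) :
    LR (nt d.K d.L) (2 ^ d.s) (fun v => 2 * ZL c.P N (pV d.K d.L v) (rV d.K d.L v) (sV d.K v)
      + c.mu1 * rwN N (fc c.P.u1) (fc c.P.u2) (pV d.K d.L v) (rV d.K d.L v) (sV d.K v)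
      + c.mu2 * rwN N (fc c.d1) (fc c.d2) (pV d.K d.L v) (rV d.K d.L v) (sV d.K v)
      + (c.mu1 + c.mu2) * ((pV d.K d.L v 0).re - 2 - 1 / 5)) (row d.b A 0) d.e := by
  unfold LinD.ok at ok
  rw [bif_and, bif_and] at ok
  obtain ⟨hn, hlen, he⟩ := ok
  have hlen : A.length = nt d.K d.L := Nat.eq_of_beq_eq_true hlen
  obtain ⟨n1, n2, n3, n4⟩ := LinD.num_spec hn
  have hT := okUq_sound n1
  have hq : (0 : ℝ) < d.q := by exact_mod_cast n2
  have hF : (0 : ℝ) < d.F := by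
    have : d.F = 2000000 * d.q := rfl
    rw [this]
    push_cast
    positivity
  have hFe : (d.F : ℝ) = 2000000 * d.q := by
    have : d.F = 2000000 * d.q := rfl
    rw [this]
    push_cast
    rfl
  have z1 := ZL_LR hr h0 hK hL hKN hLN aS aP aR aC n3
  have z2 := LR_mu_AP hK hL hKN hLN (Helper49.Sharp.u1_bm hr) (Helper49.Sharp.u2_bm hr) u1 u2 (e := (d.eu : ℝ)) le_rfl le_rfl
    (q' := d.q) (T := (d.T : ℤ)) (δ := 1) hT
  have z3 := LR_mu_AP hK hL hKN hLN b1 b2 k1 k2 (e := (d.ed : ℝ)) le_rfl le_rfl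
    (q' := d.q) (T := (d.T : ℤ)) (δ := 1) hT
  have y1 := (z1.smul 2).up d.F
  have y2 := (z2.smul (5 * d.m1)).scale (a := (500000 : ℝ)) (by norm_num)
  have y3 := (z3.smul (5 * d.m2)).scale (a := (500000 : ℝ)) (by norm_num)
  have y4 : LR (nt d.K d.L) (d.F * 2 ^ d.s) (fun v => (c.mu1 + c.mu2) * ((pV d.K d.L v 0).re - 2 - 1 / 5))
      (fun i => (4 * d.q * 2 ^ d.s : ℤ) *
        (if i = 0 then -11 * (d.m1 + d.m2) else if i = bp d.K then 5 * (d.m1 + d.m2) else 0)) 0 := by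
    refine LR_p0x d.K d.L (m := d.m1 + d.m2) ?_
    rw [m1, m2, hFe]
    push_cast
    ring
  have hsc : (500000 : ℝ) * ((4 * (d.q : ℤ) : ℤ) * 2 ^ d.s) = d.F * 2 ^ d.s := by
    rw [hFe]
    push_cast
    ring
  rw [hsc] at y2 y3
  have y5 := ((y1.add y2).add y3).add y4
  refine LR.down hF (LR.congr y5 (T := d.nu) (fun v _ => ?_) fun i _ => ?_) (t := d.t) (fun i hi => ?_) ?_
  · rw [m1, m2]
    push_cast
    ring
  · unfold LinD.nu
    rw [LinD.mt_eq, LinD.mt_eq]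
    have e1 : Int.ofNat (Nat.mul 2 d.F) = 2 * (d.F : ℤ) := by
      show ((2 * d.F : ℕ) : ℤ) = _
      push_cast
      rfl
    have e2 : Int.ofNat (Nat.mul (Nat.mul 4 d.q) (Nat.pow 2 d.s)) = 4 * d.q * 2 ^ d.s := by
      show ((4 * d.q * 2 ^ d.s : ℕ) : ℤ) = _
      push_cast
      rfl
    rw [e1, e2]
    ring
  · have h1 := LinD.ents_spec he i (by omega)
    rw [Nat.zero_add] at h1
    obtain ⟨h2, h3⟩ := LinD.ent_spec h1
    have h4 : row d.b A 0 i = ((A.getD i 0 : ℕ) : ℤ) - 2 ^ d.b := h2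
    rw [h4]
    have h5 : |((d.F : ℤ) : ℝ) * (((A.getD i 0 : ℤ) : ℝ) - 2 ^ d.b) - ((d.nu i : ℤ) : ℝ)| ≤
        (((Nat.mul d.F d.t : ℕ) : ℤ) : ℝ) := by exact_mod_cast h3
    have h6 : (((Nat.mul d.F d.t : ℕ) : ℤ) : ℝ) = (d.F : ℝ) * d.t := by
      show (((d.F * d.t : ℕ) : ℤ) : ℝ) = _
      push_cast
      rfl
    rw [h6] at h5
    push_cast at h5 ⊢
    exact h5
  · have h1 : ((d.F * (4 * d.ez + d.t) + 5 * d.m1.natAbs * (28 * d.q * d.eu + 16 * (2 ^ d.s + d.eu))
      + 5 * d.m2.natAbs * (28 * d.q * d.ed + 16 * (2 ^ d.s + d.ed)) : ℕ) : ℝ) ≤ ((d.F * d.e : ℕ) : ℝ) := by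
      exact_mod_cast n4
    have a1 : ((d.m1.natAbs : ℕ) : ℝ) = |(d.m1 : ℝ)| := Nat.cast_natAbs d.m1 |>.trans (Int.cast_abs)
    have a2 : ((d.m2.natAbs : ℕ) : ℝ) = |(d.m2 : ℝ)| := Nat.cast_natAbs d.m2 |>.trans (Int.cast_abs)
    push_cast at h1 ⊢
    rw [a1, a2] at h1
    have a3 : |(5 : ℝ) * (d.m1 : ℝ)| = 5 * |(d.m1 : ℝ)| := by rw [abs_mul]; norm_num
    have a4 : |(5 : ℝ) * (d.m2 : ℝ)| = 5 * |(d.m2 : ℝ)| := by rw [abs_mul]; norm_num
    have a5 : |(d.F : ℝ)| = d.F := abs_of_pos hF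
    have a6 : |(2 : ℝ)| = 2 := by norm_num
    rw [a3, a4, a5, a6]
    nlinarith [h1]

end

/-! ### the block -/

/-- digits are bounded by the offset -/
theorem dg_le (b x k : ℕ) : |(dg b x k : ℝ)| ≤ 2 ^ b := by
  have h : |dg b x k| ≤ 2 ^ b := by
    unfold dg
    have h1 : x / (2 ^ (b + 1)) ^ k % 2 ^ (b + 1) < 2 ^ (b + 1) := Nat.mod_lt _ (by positivity)
    have h2 : ((x / (2 ^ (b + 1)) ^ k % 2 ^ (b + 1) : ℕ) : ℤ) < ((2 ^ (b + 1) : ℕ) : ℤ) := by exact_mod_cast h1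
    have h3 : (0 : ℤ) ≤ ((x / (2 ^ (b + 1)) ^ k % 2 ^ (b + 1) : ℕ) : ℤ) := Int.natCast_nonneg _
    have h4 : ((2 ^ (b + 1) : ℕ) : ℤ) = 2 ^ b + 2 ^ b := by push_cast; ring
    have h5 : ((2 ^ b : ℕ) : ℤ) = 2 ^ b := by push_cast; rfl
    rw [abs_le]
    constructor <;> linarith
  exact_mod_cast h

/-- the column of the functional `v 0`, scale `2 ^ t` -/
def uB (b t n : ℕ) : List ℕ := Nat.add (Nat.pow 2 b) (Nat.pow 2 t) :: List.replicate (Nat.pred n) (Nat.pow 2 b)

theorem uB_row {b t n : ℕ} (ht : t < b) : ∀ i < n, row b (uB b t n) 0 i = if i = 0 then 2 ^ t else 0 := by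
  intro i hi
  have hp : 2 ^ t < 2 ^ b := Nat.pow_lt_pow_right (by norm_num) ht
  have hb : 2 ^ (b + 1) = 2 ^ b + 2 ^ b := by rw [pow_succ]; ring
  unfold row dg uB
  cases i with
  | zero =>
    rw [List.getD_cons_zero, pow_zero, Nat.div_one, if_pos rfl]
    have h1 : (Nat.pow 2 b).add (Nat.pow 2 t) = 2 ^ b + 2 ^ t := rfl
    rw [h1, Nat.mod_eq_of_lt (by omega)]
    push_cast
    ring
  | succ i =>
    rw [List.getD_cons_succ, pow_zero, Nat.div_one, if_neg (by omega)]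
    have h1 : (List.replicate (Nat.pred n) (Nat.pow 2 b)).getD i 0 = 2 ^ b := by
      rw [List.getD_eq_getElem _ _ (by rw [List.length_replicate]; show i < n - 1; omega), List.getElem_replicate]
      rfl
    rw [h1, Nat.mod_eq_of_lt (Nat.pow_lt_pow_right (by norm_num) (Nat.lt_succ_self b)), sub_self]

theorem LR_uB {b t n : ℕ} (hn : 0 < n) (ht : t < b) : LR n (2 ^ t) (fun _ => 1) (row b (uB b t n) 0) 0 := by
  refine ⟨fun i => if i = 0 then 1 else 0, fun v hv => ?_, fun i hi => ?_⟩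
  · rw [Finset.sum_eq_single 0]
    · simp [hv]
    · intro j _ hj; simp [hj]
    · intro h; exact absurd (Finset.mem_range.2 hn) h
  · beta_reduce
    rw [uB_row ht i hi]
    by_cases h : i = 0
    · rw [if_pos h, if_pos h]; push_cast; simp
    · rw [if_neg h, if_neg h]; simp

/-- the error of the block -/
def eU (n c t e : ℕ) : ℕ := Nat.mul (Nat.mul 2 c) (Nat.mul n (Nat.mul (Nat.pow 2 t) e))

/-- **a block from one affine functional**: scale `S = 2 c 2 ^ s 2 ^ t` -/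
theorem LB.aff {b s t n c e : ℕ} {g : (ℕ → ℝ) → ℝ} {A : List ℕ} {S : ℝ} (hn : 0 < n) (ht : t < b)
    (h : LR n (2 ^ s) g (row b A 0) e) (hS : S = 2 * c * (2 ^ s * 2 ^ t)) :
    LB n S g (fun v => Blk.val b n v (.bl false c 1 A (uB b t n))) ((eU n c t e : ℕ) : ℝ) := by
  have k := LB.bl (b := b) (N := n) (m := 1) (G := 2 * c) (q1 := 2 ^ s) (q2 := 2 ^ t) (w := fun _ => 1)
    (X := fun _ => g) (Y := fun _ _ => 1) (A := A) (B := uB b t n) (e1 := fun _ => (e : ℝ)) (e2 := fun _ => 0)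
    (a := fun _ => 2 ^ b) (a' := fun _ => 2 ^ t) (s := false) (c := c)
    (fun k hk => by
      have : k = 0 := by omega
      rw [this]; exact h)
    (fun k hk => by
      have : k = 0 := by omega
      rw [this]; exact LR_uB hn ht)
    (fun k _ i _ => dg_le _ _ _)
    (fun k hk i hi => by
      have : k = 0 := by omega
      rw [this, uB_row ht i hi]
      by_cases h0 : i = 0
      · rw [if_pos h0]; push_cast; exact le_of_eq (abs_of_nonneg (by positivity))
      · rw [if_neg h0, Int.cast_zero, abs_zero]; positivity)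
    (fun _ _ => Nat.cast_nonneg _) (fun _ _ => le_rfl) (fun _ _ => by positivity) (fun _ _ => by positivity)
    (fun _ _ => by simp [Helper25.SH.Mat.sgr])
  rw [hS]
  refine LB.mono (LB.congr k (fun v _ => ?_) fun v _ => rfl) (fun _ _ => le_rfl) (le_of_eq ?_)
  · simp
  · unfold eP
    have e1 : ((eU n c t e : ℕ) : ℝ) = 2 * c * (n * (2 ^ t * e)) := by
      show ((2 * c * (n * (2 ^ t * e)) : ℕ) : ℝ) = _
      push_cast
      ring
    rw [e1]
    simp

end Helper43.CL
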