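import Pool.Agent.Helper43.CL.Lnk
import Pool.Agent.Helper42.SH.HFend
import Pool.Agent.Helper70.SH.Asm

/-!
# Project RC, SHARP, cell engine: the block LIN of a record

Everything is computed from the record, the tables of `u1, u2` (helper64) and the rows `Z` (helper30).
-/

set_option autoImplicit false

open MeasureTheory Set Filter Topology

namespace Helper43.CL

open Helper49.LT hiding sg
open Helper49.Cell
open Helper95.SH
open Helper95.RC
open Helper49.Sharp
open Helper56.RC (fc)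
open Helper87.RC (BM)
open Helper87.SH (dP okA okA_ap2 ofP)
open Helper54.RC.Fast (FP PF AP smF oks)
open Helper30.SH (ZD)
open Helper70.SH (cd cd_ok okM CrtD LocH Len)
open Pool.Agent.Helper64.SH (okU UR)
open Helper25.SH.Mat (row dg Blk Blk.val)
open Helper42.SH (LBB gLIN)

/-! ### the column, computed -/

namespace LinD

/-- the entry `i` of the column: the nearest integer, with the offset -/
def col (d : LinD) (i : ℕ) : ℕ :=
  Int.toNat ((d.nu i + Int.ofNat (Nat.add (Nat.mul d.F (Nat.pow 2 d.b)) (Nat.div d.F 2))) / Int.ofNat d.F)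

/-- the list of the entries `0, .., n - 1`, in front of `A` -/
def cols (d : LinD) : ℕ → List ℕ → List ℕ
  | 0, A => A
  | Nat.succ n, A => cols d n (d.col n :: A)

/-- the column -/
def A (d : LinD) : List ℕ := d.cols (nt d.K d.L) []

end LinD

/-! ### the data of a record -/

/-- the maximum -/
def mx (a b : ℕ) : ℕ := bif Nat.ble a b then b else a

/-- the error of the tables of `Z` -/
def ezZ (z : ZD) : ℕ :=
  mx (mx (Nat.div (Nat.succ z.rS.er) 2) z.rP.er) (mx z.rR.er (Nat.div (Nat.succ z.rC.er) 2))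

/-- `⌊2 ^ 58 √3⌋` -/
def T58 : ℕ := 499229655779453596

/-- the data without the final error -/
def linE (R : Rec) (K L b a : ℕ) (z : ZD) (e : ℕ) : LinD :=
  { b := b, bz := z.b, bu := z.b, bd := z.b, s := z.s, K := K, L := L, q := Nat.pow 2 58, T := T58
    m1 := R.mu1, m2 := R.mu2, ez := ezZ z, eu := mx z.U1.er z.U2.er, ed := 0, t := 1, e := e
    pS := z.rS, pP := z.rP, pR := z.rR, pC := z.rC, u1 := z.U1.z, u2 := z.U2.z
    d1 := smF z.b (Nat.pow 2 a) (ofP z.b R.f1), d2 := smF z.b (Nat.pow 2 a) (ofP z.b R.f2) }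

/-- the final error: `⌈.⌉` of the sum, at the scale `2 ^ s` -/
def eLin (R : Rec) (z : ZD) : ℕ :=
  Nat.succ (Nat.add (Nat.succ (Nat.mul 4 (ezZ z))) (Nat.div
    (Nat.add (Nat.mul (Nat.mul 5 R.mu1.natAbs) (Nat.add (Nat.mul (Nat.mul 28 (Nat.pow 2 58)) (mx z.U1.er z.U2.er))
      (Nat.mul 16 (Nat.add (Nat.pow 2 z.s) (mx z.U1.er z.U2.er)))))
      (Nat.mul (Nat.mul 5 R.mu2.natAbs) (Nat.mul 16 (Nat.pow 2 z.s)))) (Nat.mul 2000000 (Nat.pow 2 58))))

/-- **the data of the block LIN of a record** -/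
def linD (R : Rec) (K L b a : ℕ) (z : ZD) : LinD := linE R K L b a z (eLin R z)

/-- **THE CHECK of the block LIN**: `b` = base of the column, `a` = scale of the tables minus scale of the fields -/
def okLin (R : Rec) (K L b a s0 ue : ℕ) (z : ZD) : Bool :=
  bif Nat.beq z.s (Nat.add s0 a) then
  bif Nat.ble 57 b then
  bif Nat.beq z.U1.er ue then
  bif Nat.beq z.U2.er ue then
  bif decide (z.e1 = R.e1) then
  bif decide (z.e2 = R.e2) then
  bif Nat.beq z.D 100000 then
  bif decide ((z.la : ℤ) = 100000 - R.lam) then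
  bif okA z.b R.f1 then
  bif okA z.b R.f2 then
  bif oks z.b z.r (2 ^ a) (ofP z.b R.f1) then
  bif oks z.b z.r (2 ^ a) (ofP z.b R.f2) then
    (linD R K L b a z).ok (linD R K L b a z).A
  else false else false else false else false else false else false else false else false else false else false
  else false else false

section

variable {R : Rec} {C : Crt} (h : R.ok C = true) {K0 : ℕ} (len : Len R K0) {D : CrtD} {K H b a ue r uQ uh : ℕ} {z : ZD}

theorem le_mx_left (a b : ℕ) : a ≤ mx a b := by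
  unfold mx
  cases hab : Nat.ble a b with
  | true => exact Nat.le_of_ble_eq_true hab
  | false => exact le_rfl

/-- **THE ROW LIN OF A RECORD** -/
theorem LR_linR (hK : ¬ Even K) (hm : okM R D = true) (H0 : LocH)
    (hu : okU z.b r z.s uQ uh ue R.z z.U1.z z.U2.z = true) (hQ : 0 < uQ) (hz : z.ok = true)
    (ok : okLin R K (2 * H) b a D.s ue z = true) {N : ℕ} (hKN : K ≤ N) (hLN : 2 * H ≤ N) :
    LR (nt K (2 * H)) (2 ^ z.s) (fun v => gLIN (cd R h len D.s) K H N v) (row b (linD R K (2 * H) b a z).A 0)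
      (eLin R z : ℕ) := by
  unfold okLin at ok
  simp only [bif_and] at ok
  obtain ⟨o1, o2, o3, o4, o5, o6, o7, o8, o9, o10, o11, o12, o13⟩ := ok
  have hs : z.s = D.s + a := Nat.eq_of_beq_eq_true o1
  have hU1 : z.U1.er = ue := Nat.eq_of_beq_eq_true o3
  have hU2 : z.U2.er = ue := Nat.eq_of_beq_eq_true o4
  have he1 : z.e1 = R.e1 := of_decide_eq_true o5
  have he2 : z.e2 = R.e2 := of_decide_eq_true o6
  have hD : z.D = 100000 := Nat.eq_of_beq_eq_true o7
  have hla : (z.la : ℤ) = 100000 - R.lam := of_decide_eq_true o8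
  have kk := cd_ok h len hm H0
  have hreg : R.par.Reg := kk.st.reg
  obtain ⟨u1, u2⟩ := UR h hQ hu
  have hr : z.r ≤ z.b + 1 := by
    unfold ZD.ok at hz
    rw [bif_and] at hz
    exact Nat.le_of_ble_eq_true hz.1
  have w1 : AP z.b z.s z.U1 R.par.u1 := by
    have e : z.U1 = ⟨z.U1.z, ue⟩ := by rw [← hU1]
    rw [e]
    exact u1
  have w2 : AP z.b z.s z.U2 R.par.u2 := by
    have e : z.U2 = ⟨z.U2.z, ue⟩ := by rw [← hU2]
    rw [e]
    exact u2
  have heta : R.par.eta = ((z.e1 : ℂ) + Complex.I * z.e2) / z.D := by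
    rw [Helper70.SH.par_eta, he1, he2, hD]
    push_cast
    rfl
  have hlam : 1 - R.par.lam = (z.la : ℝ) / z.D := by
    have h1 : (z.la : ℝ) = 100000 - R.lam := by exact_mod_cast hla
    rw [Helper70.SH.par_lam, hD, h1]
    push_cast
    ring
  obtain ⟨g1, g2, g3, g4⟩ := Helper30.SH.rows_sound z hreg heta hlam w1 w2 hz
  have f1 : AP z.b z.s ⟨smF z.b (2 ^ a) (ofP z.b R.f1), 0⟩ (dP D.s R.f1) := by
    rw [hs]
    exact okA_ap2 o9 a hr o11
  have f2 : AP z.b z.s ⟨smF z.b (2 ^ a) (ofP z.b R.f2), 0⟩ (dP D.s R.f2) := by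
    rw [hs]
    exact okA_ap2 o10 a hr o12
  have emx : mx z.U1.er z.U2.er = ue := by
    rw [hU1, hU2]
    unfold mx
    cases Nat.ble ue ue <;> rfl
  have key := LR_lin (d := linD R K (2 * H) b a z) (A := (linD R K (2 * H) b a z).A) (c := cd R h len D.s) (N := N)
    o13 hreg rfl hK (even_two_mul H) hKN hLN kk.b1 kk.b2 g1 g2 g3 g4
    (by
      show AP z.b z.s ⟨z.U1.z, mx z.U1.er z.U2.er⟩ _
      rw [emx]
      exact u1)
    (by
      show AP z.b z.s ⟨z.U2.z, mx z.U1.er z.U2.er⟩ _
      rw [emx]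
      exact u2)
    f1 f2 rfl rfl
  exact key

/-- **THE BLOCK LIN OF A RECORD**, field `lin` of helper42's `Pieces` -/
theorem LBB_lin (hK : ¬ Even K) (hm : okM R D = true) (H0 : LocH)
    (hu : okU z.b r z.s uQ uh ue R.z z.U1.z z.U2.z = true) (hQ : 0 < uQ) (hz : z.ok = true)
    (ok : okLin R K (2 * H) b a D.s ue z = true) (h56 : z.s = 56) :
    LBB b (nt K (2 * H)) (10 ^ 9 * 2 ^ 112) (fun v => gLIN (cd R h len D.s) K H (max K (2 * H)) v)
      [.bl false 500000000 1 (linD R K (2 * H) b a z).A (uB b 56 (nt K (2 * H)))]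
      ((eU (nt K (2 * H)) 500000000 56 (eLin R z) : ℕ) : ℝ) := by
  have k := LR_linR h len hK hm H0 hu hQ hz ok (le_max_left K (2 * H)) (le_max_right K (2 * H))
  have hb : 56 < b := by
    unfold okLin at ok
    simp only [bif_and] at ok
    exact Nat.le_of_ble_eq_true ok.2.1
  refine LBB.one (LB.aff (by unfold nt; omega) hb k ?_)
  rw [h56]
  norm_num

end

end Helper43.CL
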